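import Pool.Agent.Y412.SOS.Coeff

set_option autoImplicit false

/-!
# Copies of a graph with twelve edges, with sets of edges coded by numbers
-/

namespace Pool.Agent.Y412.SOS

open Pool.Agent.H482R3.SOS

/-- A graph with twelve edges and eight vertices, together with the list of the codes of its
cycles. -/
structure Code where
  gr : Fin 12 → Sym2 (Fin 8)
  CL : List ℕ
  nd : CL.Nodup
  lt : ∀ n ∈ CL, n < 4096
  cyc : ∀ n < 4096, IsCycle gr (S n) ↔ n ∈ CL

/-- the codes of the subsets of `u`, among the numbers below `2 ^ k` -/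
def sbk : ℕ → ℕ → List ℕ
  | 0, _ => [0]
  | k + 1, u => bif Nat.testBit u k then sbk k u ++ (sbk k u).map (fun y => Nat.lor (2 ^ k) y)
      else sbk k u

/-- the codes of the subsets of `u` -/
def sb (u : ℕ) : List ℕ := sbk 10 u

theorem mem_sbk : ∀ k u x, x ∈ sbk k u ↔ ∀ i, x.testBit i = true → i < k ∧ u.testBit i = true
  | 0, u, x => by
    rw [sbk, List.mem_singleton]
    constructor
    · rintro rfl i hi
      simp at hi
    · intro h
      apply Nat.eq_of_testBit_eq
      intro i
      rw [Nat.zero_testBit]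
      rcases hx : x.testBit i with _ | _
      · rfl
      · exact absurd (h i hx).1 (by omega)
  | k + 1, u, x => by
    have ih := mem_sbk k u
    rcases hu : u.testBit k with _ | _
    · rw [sbk, hu, cond_false, ih]
      constructor
      · intro h i hi
        exact ⟨by have := (h i hi).1; omega, (h i hi).2⟩
      · intro h i hi
        obtain ⟨h1, h2⟩ := h i hi
        refine ⟨?_, h2⟩
        rcases Nat.lt_succ_iff_lt_or_eq.1 h1 with h3 | h3
        · exact h3
        · rw [h3, hu] at h2
          exact absurd h2 (by decide)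
    · rw [sbk, hu, cond_true, List.mem_append, List.mem_map]
      constructor
      · rintro (h | ⟨y, hy, rfl⟩)
        · intro i hi
          have h2 := (ih x).1 h i hi
          exact ⟨by omega, h2.2⟩
        · intro i hi
          change ((2 ^ k) ||| y).testBit i = true at hi
          rw [Nat.testBit_or, Nat.testBit_two_pow, Bool.or_eq_true] at hi
          rcases hi with hi | hi
          · have : k = i := by simpa using hi
            subst this
            exact ⟨by omega, hu⟩
          · have h2 := (ih y).1 hy i hi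
            exact ⟨by omega, h2.2⟩
      · intro h
        rcases hx : x.testBit k with _ | _
        · left
          rw [ih]
          intro i hi
          obtain ⟨h1, h2⟩ := h i hi
          refine ⟨?_, h2⟩
          rcases Nat.lt_succ_iff_lt_or_eq.1 h1 with h3 | h3
          · exact h3
          · rw [h3, hx] at hi
            exact absurd hi (by decide)
        · right
          refine ⟨x ^^^ 2 ^ k, ?_, ?_⟩
          · rw [ih]
            intro i hi
            rw [Nat.testBit_xor, Nat.testBit_two_pow] at hi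
            by_cases hik : k = i
            · subst hik
              rw [hx] at hi
              simp at hi
            · have hxi : x.testBit i = true := by simpa [hik] using hi
              obtain ⟨h1, h2⟩ := h i hxi
              exact ⟨by omega, h2⟩
          · change (2 ^ k) ||| (x ^^^ 2 ^ k) = x
            apply Nat.eq_of_testBit_eq
            intro i
            rw [Nat.testBit_or, Nat.testBit_xor, Nat.testBit_two_pow]
            by_cases hik : k = i
            · subst hik
              rw [hx]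
              simp
            · simp [hik]

theorem nodup_sbk : ∀ k u, (sbk k u).Nodup
  | 0, u => by
    rw [sbk]
    exact List.nodup_singleton 0
  | k + 1, u => by
    have ih := nodup_sbk k u
    rcases hu : u.testBit k with _ | _
    · rw [sbk, hu, cond_false]
      exact ih
    · rw [sbk, hu, cond_true]
      have hb : ∀ y ∈ sbk k u, y.testBit k = false := by
        intro y hy
        rcases h : y.testBit k with _ | _
        · rfl
        · exact absurd ((mem_sbk k u y).1 hy k h).1 (by omega)
      have ht : ∀ y : ℕ, (Nat.lor (2 ^ k) y).testBit k = true := by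
        intro y
        change ((2 ^ k) ||| y).testBit k = true
        rw [Nat.testBit_or, Nat.testBit_two_pow]
        simp
      rw [List.nodup_append]
      refine ⟨ih, ?_, ?_⟩
      · rw [List.nodup_map_iff_inj_on ih]
        intro y hy z hz hyz
        have h1 : (2 ^ k) ||| y = (2 ^ k) ||| z := hyz
        apply Nat.eq_of_testBit_eq
        intro i
        have h2 := congrArg (fun n => n.testBit i) h1
        simp only [Nat.testBit_or, Nat.testBit_two_pow] at h2
        by_cases hik : k = i
        · subst hik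
          rw [hb y hy, hb z hz]
        · simpa [hik] using h2
      · intro a ha b hb2
        rw [List.mem_map] at hb2
        obtain ⟨y, _, rfl⟩ := hb2
        rintro rfl
        have h1 := hb _ ha
        rw [ht y] at h1
        exact absurd h1 (by decide)

theorem mem_sb {u x : ℕ} : x ∈ sb u ↔ x < 1024 ∧ x &&& u = x := by
  unfold sb
  rw [mem_sbk]
  constructor
  · intro h
    refine ⟨?_, ?_⟩
    · apply Nat.lt_pow_two_of_testBit (n := 10)
      intro i hi
      rcases hx : x.testBit i with _ | _
      · rfl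
      · exact absurd (h i hx).1 (by omega)
    · apply Nat.eq_of_testBit_eq
      intro i
      rw [Nat.testBit_and]
      rcases hx : x.testBit i with _ | _
      · rfl
      · rw [(h i hx).2]
        rfl
  · rintro ⟨h1, h2⟩ i hi
    constructor
    · by_contra h3
      have h4 : (1024 : ℕ) ≤ 2 ^ i := by
        calc (1024 : ℕ) = 2 ^ 10 := by norm_num
          _ ≤ 2 ^ i := Nat.pow_le_pow_right (by norm_num) (by omega)
      rw [Nat.testBit_lt_two_pow (by omega)] at hi
      exact absurd hi (by decide)
    · rw [← h2, Nat.testBit_and] at hi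
      simp only [Bool.and_eq_true] at hi
      exact hi.2

theorem nodup_sb (u : ℕ) : (sb u).Nodup := nodup_sbk 10 u

/-- forest test -/
def fo (CL : List ℕ) (a : ℕ) : Bool := CL.all fun z => !(Nat.beq (Nat.land z a) z)

/-- the cycle of `a ∪ {e, f}` if there is exactly one, and it contains `e` and `f`; otherwise `0` -/
def cy (CL : List ℕ) (a : ℕ) : ℕ :=
  match CL.filter fun z => Nat.beq (Nat.land z (Nat.lor a 3072)) z with
  | [z] => bif Nat.beq (Nat.land 3072 z) 3072 then z else 0
  | _ => 0

/-- `a ∈ 𝒜(s)` for the strict reading -/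
def st (g : ℕ → ℕ) (s a : ℕ) : Bool :=
  bif Nat.beq (g a) 0 then false else Nat.beq (Nat.land s (g a)) s

def inS (CL : List ℕ) (s : ℕ) : Bool :=
  CL.any fun z => Nat.beq (Nat.land (Nat.lor s 3072) z) (Nat.lor s 3072)

def tm (g : ℕ → ℕ) (s a b : ℕ) : List (ℕ × ℕ × ℕ) :=
  bif st g s a then (bif st g s b then [(s, a, b)] else []) else []

def tms (CL : List ℕ) (g : ℕ → ℕ) (d u : ℕ) : List (ℕ × ℕ × ℕ) :=
  (sb u).flatMap fun s => bif inS CL s then
    (sb (Nat.xor u s)).flatMap fun x =>
      tm g s (Nat.lor (Nat.lor s d) x) (Nat.lor (Nat.lor s d) (Nat.xor (Nat.xor u s) x)) else []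

def lh (f : ℕ → Bool) (d u : ℕ) : ℤ :=
  ((sb u).countP fun x => f (Nat.lor (Nat.lor d x) 1024) &&
      f (Nat.lor (Nat.lor d (Nat.xor u x)) 2048) : ℕ) -
  ((sb u).countP fun x => f (Nat.lor d x) &&
      f (Nat.lor (Nat.lor d (Nat.xor u x)) 3072) : ℕ)

/-- A copy of a graph in the graph `ends`. -/
structure In {V E : Type} (K : Code) (ends : E → Sym2 V) where
  κ : Fin 8 ↪ V
  ι : Fin 12 ↪ E
  comm : ∀ i, ends (ι i) = (K.gr i).map κ

theorem filter_ne {CL : List ℕ} {a : ℕ} {z : ℕ}
    (h : CL.filter (fun z => Nat.beq (Nat.land z (Nat.lor a 3072)) z) = [z]) :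
    ∀ y, (y ∈ CL ∧ y &&& (a ||| 3072) = y) ↔ y = z := by
  intro y
  have h2 : y ∈ CL.filter (fun z => Nat.beq (Nat.land z (Nat.lor a 3072)) z) ↔ y = z := by
    rw [h]
    simp
  rw [← h2, List.mem_filter]
  constructor
  · rintro ⟨h3, h4⟩
    refine ⟨h3, ?_⟩
    have : Nat.land y (Nat.lor a 3072) = y := h4
    rw [this]
    exact Nat.beq_refl y
  · rintro ⟨h3, h4⟩
    exact ⟨h3, Nat.eq_of_beq_eq_true h4⟩

theorem cy_spec {CL : List ℕ} (hnd : CL.Nodup) (a z : ℕ) : (cy CL a = z ∧ z ≠ 0) ↔
    (z ∈ CL ∧ z &&& (a ||| 3072) = z ∧ 3072 &&& z = 3072 ∧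
      ∀ y ∈ CL, y &&& (a ||| 3072) = y → y = z) := by
  constructor
  · rintro ⟨h1, h2⟩
    unfold cy at h1
    split at h1
    · rename_i w hw
      have h3 := filter_ne hw
      rcases h4 : Nat.beq (Nat.land 3072 w) 3072 with _ | _
      · rw [h4] at h1
        exact absurd h1.symm h2
      · rw [h4] at h1
        have h5 : w = z := h1
        subst h5
        have h6 := (h3 w).2 rfl
        exact ⟨h6.1, h6.2, Nat.eq_of_beq_eq_true h4, fun y hy hy2 => (h3 y).1 ⟨hy, hy2⟩⟩
    · exact absurd h1.symm h2
  · rintro ⟨h1, h2, h3, h4⟩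
    have hz : z ≠ 0 := by
      rintro rfl
      simp at h3
    refine ⟨?_, hz⟩
    have h5 : CL.filter (fun z => Nat.beq (Nat.land z (Nat.lor a 3072)) z) = [z] := by
      have hnd : (CL.filter (fun z => Nat.beq (Nat.land z (Nat.lor a 3072)) z)).Nodup :=
        List.Nodup.filter _ hnd
      have h6 : ∀ y, y ∈ CL.filter (fun z => Nat.beq (Nat.land z (Nat.lor a 3072)) z) ↔
          y ∈ [z] := by
        intro y
        rw [List.mem_filter, List.mem_singleton]
        constructor
        · rintro ⟨h7, h8⟩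
          exact h4 y h7 (Nat.eq_of_beq_eq_true h8)
        · rintro rfl
          refine ⟨h1, ?_⟩
          have : Nat.land y (Nat.lor a 3072) = y := h2
          rw [this]
          exact Nat.beq_refl y
      exact List.perm_singleton.1 ((List.perm_ext_iff_of_nodup hnd (List.nodup_singleton z)).2 h6)
    unfold cy
    rw [h5]
    have : Nat.land 3072 z = 3072 := h3
    simp only
    rw [this]
    rfl

theorem st_iff {CL : List ℕ} {g : ℕ → ℕ} {a : ℕ} (hg : g a = cy CL a) (s : ℕ) :
    st g s a = true ↔ ∃ z, (cy CL a = z ∧ z ≠ 0) ∧ s &&& z = s := by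
  unfold st
  rw [hg]
  rcases h2 : Nat.beq (cy CL a) 0 with _ | _
  · rw [cond_false]
    constructor
    · intro h
      refine ⟨cy CL a, ⟨rfl, ?_⟩, Nat.eq_of_beq_eq_true h⟩
      intro h4
      rw [h4] at h2
      exact absurd h2 (by decide)
    · rintro ⟨z, ⟨hz, _⟩, h⟩
      have : Nat.land s (cy CL a) = s := by rw [hz]; exact h
      rw [this]
      exact Nat.beq_refl s
  · rw [cond_true]
    constructor
    · intro h
      exact absurd h (by decide)
    · rintro ⟨z, ⟨hz, hz0⟩, _⟩
      exact absurd (by rw [← hz]; exact Nat.eq_of_beq_eq_true h2) hz0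

variable {V E : Type} [Fintype E] [DecidableEq E]

namespace In

variable {K : Code} {ends : E → Sym2 V} (L : In K ends)

/-- the edge set coded by `n` in the copy -/
def T (n : ℕ) : Finset E := (S n).map L.ι

omit [Fintype E] [DecidableEq E] in
theorem cycle_map (Z : Finset (Fin 12)) : IsCycle ends (Z.map L.ι) ↔ IsCycle K.gr Z := by
  constructor
  · rintro ⟨k, hk, v, g, hv, hg, hends, hmem⟩
    have h1 : ∀ i, ∃ j, L.ι j = g i := by
      intro i
      obtain ⟨j, _, hj⟩ := Finset.mem_map.1 ((hmem (g i)).2 ⟨i, rfl⟩)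
      exact ⟨j, hj⟩
    choose g' hg' using h1
    have h2 : ∀ i, ∃ j, L.κ j = v i := by
      intro i
      have h3 := hends i
      rw [← hg', L.comm] at h3
      have h4 : v i ∈ (K.gr (g' i)).map L.κ := by
        rw [h3]
        simp
      rw [Sym2.mem_map] at h4
      obtain ⟨j, _, hj⟩ := h4
      exact ⟨j, hj⟩
    choose v' hv' using h2
    refine ⟨k, hk, v', g', ?_, ?_, ?_, ?_⟩
    · intro i j hij
      apply hv
      rw [← hv', ← hv', hij]
    · intro i j hij
      apply hg
      rw [← hg', ← hg', hij]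
    · intro i
      apply Sym2.map.injective L.κ.injective
      rw [← L.comm, hg', hends, Sym2.map_mk, hv', hv']
    · intro x
      have := hmem (L.ι x)
      rw [Finset.mem_map' L.ι] at this
      rw [this]
      constructor
      · rintro ⟨i, hi⟩
        exact ⟨i, L.ι.injective (by rw [hg', hi])⟩
      · rintro ⟨i, hi⟩
        exact ⟨i, by rw [← hg', hi]⟩
  · rintro ⟨k, hk, v, g, hv, hg, hends, hmem⟩
    refine ⟨k, hk, fun i => L.κ (v i), fun i => L.ι (g i), ?_, ?_, ?_, ?_⟩
    · intro i j hij
      exact hv (L.κ.injective hij)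
    · intro i j hij
      exact hg (L.ι.injective hij)
    · intro i
      simp only
      rw [L.comm, hends, Sym2.map_mk]
    · intro x
      rw [Finset.mem_map]
      constructor
      · rintro ⟨y, hy, rfl⟩
        obtain ⟨i, rfl⟩ := (hmem y).1 hy
        exact ⟨i, rfl⟩
      · rintro ⟨i, rfl⟩
        exact ⟨g i, (hmem _).2 ⟨i, rfl⟩, rfl⟩

omit [Fintype E] [DecidableEq E] in
theorem T_subset {a b : ℕ} (ha : a < 4096) : L.T a ⊆ L.T b ↔ a &&& b = a := by
  unfold T
  rw [Finset.map_subset_map, S_subset ha]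

omit [Fintype E] [DecidableEq E] in
theorem T_inj {a b : ℕ} (ha : a < 4096) (hb : b < 4096) (h : L.T a = L.T b) : a = b :=
  S_inj ha hb (Finset.map_injective L.ι h)

omit [Fintype E] [DecidableEq E] in
theorem exists_T {Z : Finset E} {a : ℕ} (h : Z ⊆ L.T a) : ∃ z < 4096, L.T z = Z := by
  obtain ⟨D, _, hD⟩ := Finset.subset_map_iff.1 h
  obtain ⟨n, hn, rfl⟩ := S_surj D
  exact ⟨n, hn, hD.symm⟩

omit [Fintype E] [DecidableEq E] in
theorem cycle_T {z : ℕ} (hz : z < 4096) : IsCycle ends (L.T z) ↔ z ∈ K.CL := by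
  unfold T
  rw [cycle_map]
  exact K.cyc z hz

omit [Fintype E] in
theorem T_or (a b : ℕ) : L.T (a ||| b) = L.T a ∪ L.T b := by
  unfold T
  rw [LadderIn.S_or, Finset.map_union]

omit [Fintype E] in
theorem T_xor {u x : ℕ} (h : x &&& u = x) : L.T (u ^^^ x) = L.T u \ L.T x := by
  unfold T
  rw [LadderIn.S_xor h, Finset.map_sdiff]

omit [Fintype E] in
theorem T_e (a : ℕ) : L.T (a ||| 1024) = insert (L.ι 10) (L.T a) := by
  rw [T_or]
  have : L.T 1024 = {L.ι 10} := by
    unfold T
    rw [show S 1024 = {10} by decide +kernel, Finset.map_singleton]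
  rw [this, Finset.union_comm, Finset.insert_eq]

omit [Fintype E] in
theorem T_f (a : ℕ) : L.T (a ||| 2048) = insert (L.ι 11) (L.T a) := by
  rw [T_or]
  have : L.T 2048 = {L.ι 11} := by
    unfold T
    rw [show S 2048 = {11} by decide +kernel, Finset.map_singleton]
  rw [this, Finset.union_comm, Finset.insert_eq]

omit [Fintype E] in
theorem T_ef (a : ℕ) : L.T (a ||| 3072) = insert (L.ι 10) (insert (L.ι 11) (L.T a)) := by
  rw [← T_f, ← T_e, Nat.or_assoc]
  rfl

omit [Fintype E] in
theorem T_fe (a : ℕ) : L.T (a ||| 3072) = insert (L.ι 11) (insert (L.ι 10) (L.T a)) := by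
  rw [← T_e, ← T_f, Nat.or_assoc]
  rfl

omit [Fintype E] [DecidableEq E] in
theorem e_notMem {a : ℕ} (ha : a < 1024) : L.ι 10 ∉ L.T a := by
  unfold T
  rw [Finset.mem_map' L.ι]
  exact LadderIn.notMem_S ha (by decide)

omit [Fintype E] [DecidableEq E] in
theorem f_notMem {a : ℕ} (ha : a < 1024) : L.ι 11 ∉ L.T a := by
  unfold T
  rw [Finset.mem_map' L.ι]
  exact LadderIn.notMem_S ha (by decide)

omit [Fintype E] [DecidableEq E] in
theorem forest_T (a : ℕ) : IsForest ends (L.T a) ↔ fo K.CL a = true := by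
  unfold fo
  rw [List.all_eq_true]
  constructor
  · intro h z hz
    have hzl := K.lt z hz
    rw [Bool.not_eq_true']
    rcases h2 : Nat.beq (Nat.land z a) z with _ | _
    · rfl
    · exfalso
      have h3 := Nat.eq_of_beq_eq_true h2
      exact h (L.T z) ((L.T_subset hzl).2 h3) ((L.cycle_T hzl).2 hz)
  · intro h Z hZ hcyc
    obtain ⟨z, hz, rfl⟩ := L.exists_T hZ
    rw [L.T_subset hz] at hZ
    rw [L.cycle_T hz] at hcyc
    have h2 := h z hcyc
    have h3 : Nat.beq (Nat.land z a) z = true := by
      have : Nat.land z a = z := hZ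
      rw [this]
      exact Nat.beq_refl z
    rw [h3] at h2
    exact absurd h2 (by decide)

omit [Fintype E] in
theorem sum_powerset_T {u : ℕ} (hu : u < 1024) {R : Type} [AddCommMonoid R]
    (F : Finset E → R) :
    ∑ X ∈ (L.T u).powerset, F X = ((sb u).map fun x => F (L.T x)).sum := by
  have h1 : (L.T u).powerset = (sb u).toFinset.image L.T := by
    ext X
    rw [Finset.mem_powerset, Finset.mem_image]
    constructor
    · intro h
      obtain ⟨z, hz, rfl⟩ := L.exists_T h
      rw [L.T_subset hz] at h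
      refine ⟨z, ?_, rfl⟩
      rw [List.mem_toFinset, mem_sb]
      refine ⟨?_, h⟩
      rw [← h]
      exact lt_of_le_of_lt Nat.and_le_right hu
    · rintro ⟨x, hx, rfl⟩
      rw [List.mem_toFinset, mem_sb] at hx
      exact (L.T_subset (by omega)).2 hx.2
  rw [h1, Finset.sum_image, List.sum_toFinset _ (nodup_sb u)]
  intro x hx y hy hxy
  rw [Finset.mem_coe, List.mem_toFinset, mem_sb] at hx hy
  exact L.T_inj (by omega) (by omega) hxy

omit [Fintype E] in
theorem ef_subset {s z : ℕ} (hs : s < 1024) :
    insert (L.ι 10) (insert (L.ι 11) (L.T s)) ⊆ L.T z ↔ 3072 &&& z = 3072 ∧ s &&& z = s := by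
  have h1 : insert (L.ι 10) (insert (L.ι 11) (L.T s)) = L.T 3072 ∪ L.T s := by
    rw [← L.T_ef, L.T_or, Finset.union_comm]
  rw [h1, Finset.union_subset_iff, L.T_subset (by norm_num), L.T_subset (by omega)]

omit [Fintype E] in
/-- the strict reading, in terms of codes -/
theorem memA_false {s a : ℕ} (hs : s < 1024)
    (h : MemA false ends (L.ι 10) (L.ι 11) (L.T s) (L.T a)) :
    ∃ z, (cy K.CL a = z ∧ z ≠ 0) ∧ s &&& z = s := by
  obtain ⟨Z, _, _, hfor, hcyc, hsub, hZ, huniq⟩ := h
  rw [← L.T_ef] at hZ
  obtain ⟨z, hz, rfl⟩ := L.exists_T hZ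
  rw [L.ef_subset hs] at hsub
  rw [L.T_subset hz] at hZ
  rw [L.cycle_T hz] at hcyc
  refine ⟨z, ?_, hsub.2⟩
  rw [cy_spec K.nd]
  refine ⟨hcyc, hZ, hsub.1, ?_⟩
  intro y hy hy2
  have hyl := K.lt y hy
  apply L.T_inj hyl hz
  apply huniq _ ((L.cycle_T hyl).2 hy)
  · rw [← L.T_ef, L.T_subset hyl]
    exact hy2
  · intro h
    exact absurd h (by decide)

omit [Fintype E] in
/-- the literal reading, in terms of codes -/
theorem memA_true {s a : ℕ} (hs : s < 1024)
    (h : MemA true ends (L.ι 10) (L.ι 11) (L.T s) (L.T a)) :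
    fo K.CL a = true ∧ ∃ z ∈ K.CL, z &&& (a ||| 3072) = z ∧ 3072 &&& z = 3072 ∧ s &&& z = s := by
  obtain ⟨Z, _, _, hfor, hcyc, hsub, hZ, _⟩ := h
  rw [← L.T_ef] at hZ
  obtain ⟨z, hz, rfl⟩ := L.exists_T hZ
  rw [L.ef_subset hs] at hsub
  rw [L.T_subset hz] at hZ
  rw [L.cycle_T hz] at hcyc
  exact ⟨(L.forest_T a).1 hfor, z, hcyc, hZ, hsub.1, hsub.2⟩

end In

end Pool.Agent.Y412.SOS
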