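import Pool.Agent.Y412.SOS.Defs

set_option autoImplicit false

namespace Pool.Agent.Y412.SOS

open MvPolynomial Pool.Agent.H482R3.SOS

variable {V E : Type} [Fintype E] [DecidableEq E]

omit [Fintype E] [DecidableEq E] in
theorem prod_eqR (A : Finset E) : (∏ g ∈ A, X g : MvPolynomial E ℝ) = monomial (ind A) 1 := by
  unfold ind
  rw [monomial_sum_one]
  rfl

theorem pairsR (D U : Finset E) (hDU : Disjoint D U) (F : Finset E → Finset E → ℝ) :
    (∑ A : Finset E, ∑ B : Finset E, if ind A + ind B = mu D U then F A B else 0) =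
      ∑ X ∈ U.powerset, F (D ∪ X) (D ∪ (U \ X)) := by
  classical
  rw [← Finset.sum_product', ← Finset.sum_filter]
  have hDU' : ∀ x, x ∈ D → x ∉ U := fun x hx => Finset.disjoint_left.1 hDU hx
  have key : ∀ A B : Finset E, ind A + ind B = mu D U → ∀ x,
      (if x ∈ A then 1 else 0) + (if x ∈ B then 1 else 0) =
      (if x ∈ D then 1 else 0) + (if x ∈ D then 1 else 0) + (if x ∈ U then 1 else 0) := by
    intro A B h x
    have h2 := DFunLike.congr_fun h x
    simp only [mu, Finsupp.add_apply, ind_apply] at h2
    exact h2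
  refine Finset.sum_nbij' (fun p => p.1 \ D) (fun X => (D ∪ X, D ∪ (U \ X))) ?_ ?_ ?_ ?_ ?_
  · rintro ⟨A, B⟩ h
    simp only [Finset.mem_filter, Finset.mem_product, Finset.mem_univ, true_and] at h
    simp only [Finset.mem_powerset]
    intro x hx
    rw [Finset.mem_sdiff] at hx
    have h2 := key A B h x
    by_contra hU
    simp only [hx.1, hx.2, hU, if_true, if_false] at h2
    omega
  · intro X hX
    rw [Finset.mem_powerset] at hX
    simp only [Finset.mem_filter, Finset.mem_product, Finset.mem_univ, true_and]
    ext x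
    simp only [mu, Finsupp.add_apply, ind_apply, Finset.mem_union, Finset.mem_sdiff]
    by_cases h1 : x ∈ D
    · have h2 := hDU' x h1
      have h3 : x ∉ X := fun h => h2 (hX h)
      simp [h1, h2]
    · by_cases h2 : x ∈ X
      · have h3 := hX h2
        simp [h1, h2, h3]
      · simp [h1, h2]
  · rintro ⟨A, B⟩ h
    simp only [Finset.mem_filter, Finset.mem_product, Finset.mem_univ, true_and] at h
    have hk := key A B h
    refine Prod.ext ?_ ?_
    · ext x
      simp only [Finset.mem_union, Finset.mem_sdiff]
      have h2 := hk x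
      by_cases h3 : x ∈ D
      · have h4 := hDU' x h3
        have h5 : x ∈ A := by
          by_contra h5
          simp only [h3, h4, h5, if_true, if_false] at h2
          split_ifs at h2 <;> omega
        simp [h3, h5]
      · simp [h3]
    · ext x
      simp only [Finset.mem_union, Finset.mem_sdiff]
      have h2 := hk x
      by_cases h3 : x ∈ D <;> by_cases h4 : x ∈ U <;> by_cases h5 : x ∈ A <;> by_cases h6 : x ∈ B <;>
        simp only [h3, h4, h5, h6, if_true, if_false] at h2 ⊢ <;> first
        | omega
        | simp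
        | exact absurd h4 (hDU' x h3)
  · intro X hX
    rw [Finset.mem_powerset] at hX
    ext x
    simp only [Finset.mem_union, Finset.mem_sdiff]
    by_cases h3 : x ∈ D
    · have : x ∉ X := fun h => hDU' x h3 (hX h)
      simp [h3, this]
    · simp [h3]
  · rintro ⟨A, B⟩ h
    simp only [Finset.mem_filter, Finset.mem_product, Finset.mem_univ, true_and] at h
    have hk := key A B h
    congr 1
    · ext x
      simp only [Finset.mem_union, Finset.mem_sdiff]
      have h2 := hk x
      by_cases h3 : x ∈ D
      · have h4 := hDU' x h3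
        have h5 : x ∈ A := by
          by_contra h5
          simp only [h3, h4, h5, if_true, if_false] at h2
          split_ifs at h2 <;> omega
        simp [h3, h5]
      · simp [h3]
    · ext x
      simp only [Finset.mem_union, Finset.mem_sdiff]
      have h2 := hk x
      by_cases h3 : x ∈ D <;> by_cases h4 : x ∈ U <;> by_cases h5 : x ∈ A <;> by_cases h6 : x ∈ B <;>
        simp only [h3, h4, h5, h6, if_true, if_false] at h2 ⊢ <;> first
        | omega
        | simp
        | exact absurd h4 (hDU' x h3)

theorem coeff_sqR (D U S : Finset E) (hDU : Disjoint D U) (h : Finset E → ℝ)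
    (hS : ∀ A, h A ≠ 0 → S ⊆ A) :
    coeff (mu D U) ((∏ g ∈ S, X g) * (∑ A : Finset E, C (h A) * ∏ g ∈ A \ S, X g) ^ 2) =
      if S ⊆ U then ∑ X ∈ (U \ S).powerset, h (S ∪ D ∪ X) * h (S ∪ D ∪ ((U \ S) \ X)) else 0 := by
  classical
  have hDU' : ∀ x, x ∈ D → x ∉ U := fun x hx => Finset.disjoint_left.1 hDU hx
  have h1 : coeff (mu D U) ((∏ g ∈ S, X g) * (∑ A : Finset E, C (h A) * ∏ g ∈ A \ S, X g) ^ 2) =
      ∑ A : Finset E, ∑ B : Finset E,
        if ind S + (ind (A \ S) + ind (B \ S)) = mu D U then h A * h B else 0 := by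
    rw [sq, Finset.sum_mul_sum, Finset.mul_sum, coeff_sum]
    refine Finset.sum_congr rfl fun A _ => ?_
    rw [Finset.mul_sum, coeff_sum]
    refine Finset.sum_congr rfl fun B _ => ?_
    rw [prod_eqR, prod_eqR, prod_eqR, C_mul_monomial, C_mul_monomial, monomial_mul, monomial_mul,
      coeff_monomial]
    simp
  rw [h1]
  by_cases hSU : S ⊆ U
  · rw [if_pos hSU]
    have hd : Disjoint (S ∪ D) (U \ S) := by
      rw [Finset.disjoint_left]
      intro x hx
      simp only [Finset.mem_union, Finset.mem_sdiff] at hx ⊢
      rcases hx with hx | hx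
      · tauto
      · have := hDU' x hx
        tauto
    rw [← pairsR (S ∪ D) (U \ S) hd fun A B => h A * h B]
    refine Finset.sum_congr rfl fun A _ => ?_
    refine Finset.sum_congr rfl fun B _ => ?_
    by_cases hA : h A = 0
    · simp [hA]
    by_cases hB : h B = 0
    · simp [hB]
    have hSA := hS A hA
    have hSB := hS B hB
    have : (ind S + (ind (A \ S) + ind (B \ S)) = mu D U) ↔
        (ind A + ind B = mu (S ∪ D) (U \ S)) := by
      constructor
      · intro h2
        ext x
        have h3 := DFunLike.congr_fun h2 x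
        simp only [mu, Finsupp.add_apply, ind_apply, Finset.mem_union, Finset.mem_sdiff] at h3 ⊢
        by_cases hx : x ∈ S
        · have h4 := hSA hx
          have h5 := hSB hx
          simp [hx, h4, h5]
        · simp only [hx, not_false_eq_true, and_true, false_or, if_false] at h3 ⊢
          omega
      · intro h2
        ext x
        have h3 := DFunLike.congr_fun h2 x
        simp only [mu, Finsupp.add_apply, ind_apply, Finset.mem_union, Finset.mem_sdiff] at h3 ⊢
        by_cases hx : x ∈ S
        · have h4 := hSU hx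
          have h5 : x ∉ D := fun h => hDU' x h h4
          simp [hx, h4, h5]
        · simp only [hx, not_false_eq_true, and_true, false_or, if_false] at h3 ⊢
          omega
    simp only [this]
  · rw [if_neg hSU]
    obtain ⟨x, hxS, hxU⟩ := Finset.not_subset.1 hSU
    refine Finset.sum_eq_zero fun A _ => Finset.sum_eq_zero fun B _ => ?_
    rw [if_neg]
    intro h2
    have h3 := DFunLike.congr_fun h2 x
    simp only [mu, Finsupp.add_apply, ind_apply, Finset.mem_sdiff, hxS, hxU, not_true_eq_false,
      and_false, if_true, if_false] at h3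
    split_ifs at h3 <;> omega

open Classical in
/-- The coefficients of the Rayleigh difference. -/
theorem coeff_rayleigh (ends : E → Sym2 V) (e f : E) (D U : Finset E) (hDU : Disjoint D U) :
    coeff (mu D U) (rayleigh ends e f) = ∑ X ∈ U.powerset,
        ((if (e ∉ D ∪ X ∧ IsForest ends (insert e (D ∪ X))) ∧
            (f ∉ D ∪ (U \ X) ∧ IsForest ends (insert f (D ∪ (U \ X)))) then (1 : ℤ) else 0) -
        (if IsForest ends (D ∪ X) ∧ (e ∉ D ∪ (U \ X) ∧ f ∉ insert e (D ∪ (U \ X)) ∧
            IsForest ends (insert f (insert e (D ∪ (U \ X))))) then (1 : ℤ) else 0)) := by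
  have hL : rayleigh ends e f = pl (fun A => e ∉ A ∧ IsForest ends (insert e A)) *
      pl (fun A => f ∉ A ∧ IsForest ends (insert f A)) -
      pl (IsForest ends) * pl (fun A => e ∉ A ∧ f ∉ insert e A ∧
        IsForest ends (insert f (insert e A))) := by
    have h0 : forestPoly ends = pl (IsForest ends) := rfl
    unfold rayleigh
    rw [h0, pderiv_pl, pderiv_pl, pderiv_pl]
  rw [hL, coeff_sub, coeff_pl_mul D U hDU, coeff_pl_mul D U hDU, ← Finset.sum_sub_distrib]
  refine Finset.sum_congr rfl fun X _ => ?_
  exact congrArg₂ (· - ·) (ite_inst _ _ _ _) (ite_inst _ _ _ _)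

/-- The coefficients of a weak SOS identity. -/
theorem real_coeff {lit : Bool} {ends : E → Sym2 V} {e f : E} (hsos : IsRealSOS lit ends e f) :
    ∃ (n : ℕ) (v : Finset E → Finset E → Fin n → ℝ),
      (∀ S A, v S A ≠ 0 → InS ends e f S ∧ MemA lit ends e f S A) ∧
      ∀ D U : Finset E, Disjoint D U →
        ((coeff (mu D U) (rayleigh ends e f) : ℤ) : ℝ) =
        ∑ S ∈ U.powerset, ∑ X ∈ (U \ S).powerset,
          v S (S ∪ D ∪ X) ⬝ᵥ v S (S ∪ D ∪ ((U \ S) \ X)) := by
  classical
  obtain ⟨n, c, hid⟩ := hsos
  let v : Finset E → Finset E → Fin n → ℝ := fun S A j =>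
    if InS ends e f S ∧ MemA lit ends e f S A then c j S A else 0
  have hv : ∀ S A, v S A ≠ 0 → InS ends e f S ∧ MemA lit ends e f S A := by
    intro S A h
    by_contra h2
    apply h
    funext j
    exact if_neg h2
  refine ⟨n, v, hv, fun D U hDU => ?_⟩
  have h1 := congrArg (coeff (mu D U)) hid
  rw [coeff_map, coeff_sum] at h1
  refine h1.trans ?_
  have h2 : ∀ S : Finset E, coeff (mu D U) (if InS ends e f S then
      (∏ g ∈ S, X g) * ∑ j, (∑ A : Finset E,
        if MemA lit ends e f S A then C (c j S A) * ∏ g ∈ A \ S, X g else 0) ^ 2 else 0) =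
      if S ⊆ U then ∑ X ∈ (U \ S).powerset,
          v S (S ∪ D ∪ X) ⬝ᵥ v S (S ∪ D ∪ ((U \ S) \ X)) else 0 := by
    intro S
    have h3 : (if InS ends e f S then (∏ g ∈ S, X g) * ∑ j, (∑ A : Finset E,
        if MemA lit ends e f S A then C (c j S A) * ∏ g ∈ A \ S, X g else 0) ^ 2
        else (0 : MvPolynomial E ℝ)) =
        ∑ j, (∏ g ∈ S, X g) * (∑ A : Finset E, C (v S A j) * ∏ g ∈ A \ S, X g) ^ 2 := by
      by_cases hS : InS ends e f S
      · rw [if_pos hS, Finset.mul_sum]
        refine Finset.sum_congr rfl fun j _ => ?_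
        congr 2
        refine Finset.sum_congr rfl fun A _ => ?_
        simp only [v, hS, true_and]
        split_ifs <;> simp
      · rw [if_neg hS]
        symm
        refine Finset.sum_eq_zero fun j _ => ?_
        have : (∑ A : Finset E, C (v S A j) * ∏ g ∈ A \ S, X g : MvPolynomial E ℝ) = 0 := by
          refine Finset.sum_eq_zero fun A _ => ?_
          simp only [v, hS, false_and, if_false]
          simp
        rw [this]
        simp
    rw [h3, coeff_sum]
    have h4 : ∀ j, coeff (mu D U) ((∏ g ∈ S, X g) *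
        (∑ A : Finset E, C (v S A j) * ∏ g ∈ A \ S, X g) ^ 2) =
        if S ⊆ U then ∑ X ∈ (U \ S).powerset,
          v S (S ∪ D ∪ X) j * v S (S ∪ D ∪ ((U \ S) \ X)) j else 0 := by
      intro j
      apply coeff_sqR D U S hDU (fun A => v S A j)
      intro A hA
      have h5 : v S A ≠ 0 := fun h => hA (congrFun h j)
      obtain ⟨hS, Z, _, _, _, _, h6, h7, _⟩ := hv S A h5
      intro x hx
      have h8 := h7 (h6 (Finset.mem_insert_of_mem (Finset.mem_insert_of_mem hx)))
      rw [Finset.mem_insert, Finset.mem_insert] at h8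
      rcases h8 with h8 | h8 | h8
      · exact absurd (h8 ▸ hx) hS.1
      · exact absurd (h8 ▸ hx) hS.2.1
      · exact h8
    simp_rw [h4]
    by_cases hSU : S ⊆ U
    · simp only [if_pos hSU]
      rw [Finset.sum_comm]
      rfl
    · simp only [if_neg hSU, Finset.sum_const_zero]
  simp_rw [h2]
  rw [← Finset.sum_filter]
  congr 1
  ext S
  simp

/-- A sum of squares with signs is a sum of squares in the weak sense. -/
theorem IsRealSOS.of_isSOS {lit : Bool} {ends : E → Sym2 V} {e f : E}
    (h : IsSOS lit ends e f) : IsRealSOS lit ends e f := by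
  classical
  obtain ⟨c, _, hid⟩ := h
  refine ⟨1, fun _ S A => ((∑ Z, if InA lit ends e f S A Z then c S Z else 0 : ℤ) : ℝ), ?_⟩
  rw [hid, map_sum]
  refine Finset.sum_congr rfl fun S _ => ?_
  by_cases hS : InS ends e f S
  · rw [if_pos hS, if_pos hS, map_mul, map_pow, map_prod, Fin.sum_univ_one, map_sum]
    congr 1
    · exact Finset.prod_congr rfl fun g _ => map_X _ _
    congr 1
    refine Finset.sum_congr rfl fun A _ => ?_
    rw [map_sum]
    by_cases hA : MemA lit ends e f S A
    · rw [if_pos hA]
      simp only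
      rw [Int.cast_sum, map_sum, Finset.sum_mul]
      refine Finset.sum_congr rfl fun Z _ => ?_
      by_cases hZ : InA lit ends e f S A Z
      · simp only [if_pos hZ]
        rw [map_mul, map_prod, map_C]
        congr 1
        exact Finset.prod_congr rfl fun g _ => map_X _ _
      · simp only [if_neg hZ]
        simp
    · rw [if_neg hA]
      refine Finset.sum_eq_zero fun Z _ => ?_
      rw [if_neg (fun h => hA ⟨Z, h⟩), map_zero]
  · rw [if_neg hS, if_neg hS, map_zero]

end Pool.Agent.Y412.SOS
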