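import Pool.Agent.Y412.SOS.Code

set_option autoImplicit false

/-!
# The cycles of the cube
-/

namespace Pool.Agent.Y412.SOS

open Pool.Agent.H482R3.SOS

def cubeCL : List ℕ := [159, 332, 467, 624, 751, 828, 931, 1045, 1162, 1369, 1478, 1637, 1833, 1974, 2083, 2236, 2544, 2643, 2764, 2847, 2944, 3126, 3241, 3450, 3557, 3654, 3801, 3850]

theorem cubeCL_lt : ∀ n ∈ cubeCL, n < 4096 := by
  decide

theorem ccyc159 : IsCycle cube (S 159) := by
  have h : S 159 = ([0, 4, 2, 3, 7, 1] : List (Fin 12)).toFinset := by decide +kernel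
  rw [h]
  exact isCycle_of_lists [0, 2, 3, 1, 5, 4] [0, 4, 2, 3, 7, 1] (by decide) (by decide)
    (by decide) (by decide) (by decide +kernel)

theorem ccyc332 : IsCycle cube (S 332) := by
  have h : S 332 = ([2, 6, 8, 3] : List (Fin 12)).toFinset := by decide +kernel
  rw [h]
  exact isCycle_of_lists [1, 3, 7, 5] [2, 6, 8, 3] (by decide) (by decide)
    (by decide) (by decide) (by decide +kernel)

theorem ccyc467 : IsCycle cube (S 467) := by
  have h : S 467 = ([0, 4, 6, 8, 7, 1] : List (Fin 12)).toFinset := by decide +kernel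
  rw [h]
  exact isCycle_of_lists [0, 2, 3, 7, 5, 4] [0, 4, 6, 8, 7, 1] (by decide) (by decide)
    (by decide) (by decide) (by decide +kernel)

theorem ccyc624 : IsCycle cube (S 624) := by
  have h : S 624 = ([4, 6, 9, 5] : List (Fin 12)).toFinset := by decide +kernel
  rw [h]
  exact isCycle_of_lists [2, 3, 7, 6] [4, 6, 9, 5] (by decide) (by decide)
    (by decide) (by decide) (by decide +kernel)

theorem ccyc751 : IsCycle cube (S 751) := by
  have h : S 751 = ([0, 5, 9, 6, 2, 3, 7, 1] : List (Fin 12)).toFinset := by decide +kernel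
  rw [h]
  exact isCycle_of_lists [0, 2, 6, 7, 3, 1, 5, 4] [0, 5, 9, 6, 2, 3, 7, 1] (by decide) (by decide)
    (by decide) (by decide) (by decide +kernel)

theorem ccyc828 : IsCycle cube (S 828) := by
  have h : S 828 = ([2, 4, 5, 9, 8, 3] : List (Fin 12)).toFinset := by decide +kernel
  rw [h]
  exact isCycle_of_lists [1, 3, 2, 6, 7, 5] [2, 4, 5, 9, 8, 3] (by decide) (by decide)
    (by decide) (by decide) (by decide +kernel)

theorem ccyc931 : IsCycle cube (S 931) := by
  have h : S 931 = ([0, 5, 9, 8, 7, 1] : List (Fin 12)).toFinset := by decide +kernel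
  rw [h]
  exact isCycle_of_lists [0, 2, 6, 7, 5, 4] [0, 5, 9, 8, 7, 1] (by decide) (by decide)
    (by decide) (by decide) (by decide +kernel)

theorem ccyc1045 : IsCycle cube (S 1045) := by
  have h : S 1045 = ([0, 4, 2, 10] : List (Fin 12)).toFinset := by decide +kernel
  rw [h]
  exact isCycle_of_lists [0, 2, 3, 1] [0, 4, 2, 10] (by decide) (by decide)
    (by decide) (by decide) (by decide +kernel)

theorem ccyc1162 : IsCycle cube (S 1162) := by
  have h : S 1162 = ([1, 7, 3, 10] : List (Fin 12)).toFinset := by decide +kernel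
  rw [h]
  exact isCycle_of_lists [0, 4, 5, 1] [1, 7, 3, 10] (by decide) (by decide)
    (by decide) (by decide) (by decide +kernel)

theorem ccyc1369 : IsCycle cube (S 1369) := by
  have h : S 1369 = ([0, 4, 6, 8, 3, 10] : List (Fin 12)).toFinset := by decide +kernel
  rw [h]
  exact isCycle_of_lists [0, 2, 3, 7, 5, 1] [0, 4, 6, 8, 3, 10] (by decide) (by decide)
    (by decide) (by decide) (by decide +kernel)

theorem ccyc1478 : IsCycle cube (S 1478) := by
  have h : S 1478 = ([1, 7, 8, 6, 2, 10] : List (Fin 12)).toFinset := by decide +kernel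
  rw [h]
  exact isCycle_of_lists [0, 4, 5, 7, 3, 1] [1, 7, 8, 6, 2, 10] (by decide) (by decide)
    (by decide) (by decide) (by decide +kernel)

theorem ccyc1637 : IsCycle cube (S 1637) := by
  have h : S 1637 = ([0, 5, 9, 6, 2, 10] : List (Fin 12)).toFinset := by decide +kernel
  rw [h]
  exact isCycle_of_lists [0, 2, 6, 7, 3, 1] [0, 5, 9, 6, 2, 10] (by decide) (by decide)
    (by decide) (by decide) (by decide +kernel)

theorem ccyc1833 : IsCycle cube (S 1833) := by
  have h : S 1833 = ([0, 5, 9, 8, 3, 10] : List (Fin 12)).toFinset := by decide +kernel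
  rw [h]
  exact isCycle_of_lists [0, 2, 6, 7, 5, 1] [0, 5, 9, 8, 3, 10] (by decide) (by decide)
    (by decide) (by decide) (by decide +kernel)

theorem ccyc1974 : IsCycle cube (S 1974) := by
  have h : S 1974 = ([1, 7, 8, 9, 5, 4, 2, 10] : List (Fin 12)).toFinset := by decide +kernel
  rw [h]
  exact isCycle_of_lists [0, 4, 5, 7, 6, 2, 3, 1] [1, 7, 8, 9, 5, 4, 2, 10] (by decide) (by decide)
    (by decide) (by decide) (by decide +kernel)

theorem ccyc2083 : IsCycle cube (S 2083) := by
  have h : S 2083 = ([0, 5, 11, 1] : List (Fin 12)).toFinset := by decide +kernel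
  rw [h]
  exact isCycle_of_lists [0, 2, 6, 4] [0, 5, 11, 1] (by decide) (by decide)
    (by decide) (by decide) (by decide +kernel)

theorem ccyc2236 : IsCycle cube (S 2236) := by
  have h : S 2236 = ([2, 4, 5, 11, 7, 3] : List (Fin 12)).toFinset := by decide +kernel
  rw [h]
  exact isCycle_of_lists [1, 3, 2, 6, 4, 5] [2, 4, 5, 11, 7, 3] (by decide) (by decide)
    (by decide) (by decide) (by decide +kernel)

theorem ccyc2544 : IsCycle cube (S 2544) := by
  have h : S 2544 = ([4, 6, 8, 7, 11, 5] : List (Fin 12)).toFinset := by decide +kernel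
  rw [h]
  exact isCycle_of_lists [2, 3, 7, 5, 4, 6] [4, 6, 8, 7, 11, 5] (by decide) (by decide)
    (by decide) (by decide) (by decide +kernel)

theorem ccyc2643 : IsCycle cube (S 2643) := by
  have h : S 2643 = ([0, 4, 6, 9, 11, 1] : List (Fin 12)).toFinset := by decide +kernel
  rw [h]
  exact isCycle_of_lists [0, 2, 3, 7, 6, 4] [0, 4, 6, 9, 11, 1] (by decide) (by decide)
    (by decide) (by decide) (by decide +kernel)

theorem ccyc2764 : IsCycle cube (S 2764) := by
  have h : S 2764 = ([2, 6, 9, 11, 7, 3] : List (Fin 12)).toFinset := by decide +kernel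
  rw [h]
  exact isCycle_of_lists [1, 3, 7, 6, 4, 5] [2, 6, 9, 11, 7, 3] (by decide) (by decide)
    (by decide) (by decide) (by decide +kernel)

theorem ccyc2847 : IsCycle cube (S 2847) := by
  have h : S 2847 = ([0, 4, 2, 3, 8, 9, 11, 1] : List (Fin 12)).toFinset := by decide +kernel
  rw [h]
  exact isCycle_of_lists [0, 2, 3, 1, 5, 7, 6, 4] [0, 4, 2, 3, 8, 9, 11, 1] (by decide) (by decide)
    (by decide) (by decide) (by decide +kernel)

theorem ccyc2944 : IsCycle cube (S 2944) := by
  have h : S 2944 = ([7, 8, 9, 11] : List (Fin 12)).toFinset := by decide +kernel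
  rw [h]
  exact isCycle_of_lists [4, 5, 7, 6] [7, 8, 9, 11] (by decide) (by decide)
    (by decide) (by decide) (by decide +kernel)

theorem ccyc3126 : IsCycle cube (S 3126) := by
  have h : S 3126 = ([1, 11, 5, 4, 2, 10] : List (Fin 12)).toFinset := by decide +kernel
  rw [h]
  exact isCycle_of_lists [0, 4, 6, 2, 3, 1] [1, 11, 5, 4, 2, 10] (by decide) (by decide)
    (by decide) (by decide) (by decide +kernel)

theorem ccyc3241 : IsCycle cube (S 3241) := by
  have h : S 3241 = ([0, 5, 11, 7, 3, 10] : List (Fin 12)).toFinset := by decide +kernel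
  rw [h]
  exact isCycle_of_lists [0, 2, 6, 4, 5, 1] [0, 5, 11, 7, 3, 10] (by decide) (by decide)
    (by decide) (by decide) (by decide +kernel)

theorem ccyc3450 : IsCycle cube (S 3450) := by
  have h : S 3450 = ([1, 11, 5, 4, 6, 8, 3, 10] : List (Fin 12)).toFinset := by decide +kernel
  rw [h]
  exact isCycle_of_lists [0, 4, 6, 2, 3, 7, 5, 1] [1, 11, 5, 4, 6, 8, 3, 10] (by decide) (by decide)
    (by decide) (by decide) (by decide +kernel)

theorem ccyc3557 : IsCycle cube (S 3557) := by
  have h : S 3557 = ([0, 5, 11, 7, 8, 6, 2, 10] : List (Fin 12)).toFinset := by decide +kernel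
  rw [h]
  exact isCycle_of_lists [0, 2, 6, 4, 5, 7, 3, 1] [0, 5, 11, 7, 8, 6, 2, 10] (by decide) (by decide)
    (by decide) (by decide) (by decide +kernel)

theorem ccyc3654 : IsCycle cube (S 3654) := by
  have h : S 3654 = ([1, 11, 9, 6, 2, 10] : List (Fin 12)).toFinset := by decide +kernel
  rw [h]
  exact isCycle_of_lists [0, 4, 6, 7, 3, 1] [1, 11, 9, 6, 2, 10] (by decide) (by decide)
    (by decide) (by decide) (by decide +kernel)

theorem ccyc3801 : IsCycle cube (S 3801) := by
  have h : S 3801 = ([0, 4, 6, 9, 11, 7, 3, 10] : List (Fin 12)).toFinset := by decide +kernel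
  rw [h]
  exact isCycle_of_lists [0, 2, 3, 7, 6, 4, 5, 1] [0, 4, 6, 9, 11, 7, 3, 10] (by decide) (by decide)
    (by decide) (by decide) (by decide +kernel)

theorem ccyc3850 : IsCycle cube (S 3850) := by
  have h : S 3850 = ([1, 11, 9, 8, 3, 10] : List (Fin 12)).toFinset := by decide +kernel
  rw [h]
  exact isCycle_of_lists [0, 4, 6, 7, 5, 1] [1, 11, 9, 8, 3, 10] (by decide) (by decide)
    (by decide) (by decide) (by decide +kernel)

theorem cube_cycle_of_mem : ∀ n ∈ cubeCL, IsCycle cube (S n) := by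
  intro n hn
  simp only [cubeCL, List.mem_cons, List.not_mem_nil, or_false] at hn
  rcases hn with rfl | rfl | rfl | rfl | rfl | rfl | rfl | rfl | rfl | rfl | rfl | rfl | rfl | rfl | rfl | rfl | rfl | rfl | rfl | rfl | rfl | rfl | rfl | rfl | rfl | rfl | rfl | rfl
  · exact ccyc159
  · exact ccyc332
  · exact ccyc467
  · exact ccyc624
  · exact ccyc751
  · exact ccyc828
  · exact ccyc931
  · exact ccyc1045
  · exact ccyc1162
  · exact ccyc1369
  · exact ccyc1478
  · exact ccyc1637
  · exact ccyc1833
  · exact ccyc1974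
  · exact ccyc2083
  · exact ccyc2236
  · exact ccyc2544
  · exact ccyc2643
  · exact ccyc2764
  · exact ccyc2847
  · exact ccyc2944
  · exact ccyc3126
  · exact ccyc3241
  · exact ccyc3450
  · exact ccyc3557
  · exact ccyc3654
  · exact ccyc3801
  · exact ccyc3850

theorem cube_loopless : ∀ x, ¬ (cube x).IsDiag := by
  decide +kernel

/-- parity of the degrees -/
def cubeEv (n : ℕ) : Bool :=
  !(n.testBit 0 ^^ n.testBit 1 ^^ n.testBit 10) &&
  !(n.testBit 2 ^^ n.testBit 3 ^^ n.testBit 10) &&
  !(n.testBit 0 ^^ n.testBit 4 ^^ n.testBit 5) &&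
  !(n.testBit 2 ^^ n.testBit 4 ^^ n.testBit 6) &&
  !(n.testBit 1 ^^ n.testBit 7 ^^ n.testBit 11) &&
  !(n.testBit 3 ^^ n.testBit 7 ^^ n.testBit 8) &&
  !(n.testBit 5 ^^ n.testBit 9 ^^ n.testBit 11) &&
  !(n.testBit 6 ^^ n.testBit 8 ^^ n.testBit 9)

theorem cube_parity {n : ℕ} {u : Fin 8} {a b c : Fin 12}
    (h : ∀ x, u ∈ cube x ↔ x = a ∨ x = b ∨ x = c) (hab : a ≠ b) (hac : a ≠ c) (hbc : b ≠ c)
    (he : EvenSet cube (S n)) :
    (n.testBit a.val ^^ n.testBit b.val ^^ n.testBit c.val) = false := by
  have h1 := he u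
  have h2 : (S n).filter (fun x => u ∈ cube x) =
      ({a, b, c} : Finset (Fin 12)).filter (fun x => n.testBit x.val = true) := by
    ext x
    rw [Finset.mem_filter, Finset.mem_filter, mem_S, h]
    simp only [Finset.mem_insert, Finset.mem_singleton]
    tauto
  rw [h2] at h1
  rcases ha : n.testBit a.val <;> rcases hb : n.testBit b.val <;> rcases hc : n.testBit c.val <;>
    simp [Finset.filter_insert, Finset.filter_singleton, ha, hb, hc, hab, hac, hbc] at h1 ⊢ <;>
    revert h1 <;> decide

theorem cube_even {n : ℕ} (he : EvenSet cube (S n)) : cubeEv n = true := by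
  have h0 := cube_parity (u := 0) (a := 0) (b := 1) (c := 10) (by decide +kernel) (by decide)
    (by decide) (by decide) he
  have h1 := cube_parity (u := 1) (a := 2) (b := 3) (c := 10) (by decide +kernel) (by decide)
    (by decide) (by decide) he
  have h2 := cube_parity (u := 2) (a := 0) (b := 4) (c := 5) (by decide +kernel) (by decide)
    (by decide) (by decide) he
  have h3 := cube_parity (u := 3) (a := 2) (b := 4) (c := 6) (by decide +kernel) (by decide)
    (by decide) (by decide) he
  have h4 := cube_parity (u := 4) (a := 1) (b := 7) (c := 11) (by decide +kernel) (by decide)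
    (by decide) (by decide) he
  have h5 := cube_parity (u := 5) (a := 3) (b := 7) (c := 8) (by decide +kernel) (by decide)
    (by decide) (by decide) he
  have h6 := cube_parity (u := 6) (a := 5) (b := 9) (c := 11) (by decide +kernel) (by decide)
    (by decide) (by decide) he
  have h7 := cube_parity (u := 7) (a := 6) (b := 8) (c := 9) (by decide +kernel) (by decide)
    (by decide) (by decide) he
  have e0 : (n.testBit 0 ^^ n.testBit 1 ^^ n.testBit 10) = false := h0
  have e1 : (n.testBit 2 ^^ n.testBit 3 ^^ n.testBit 10) = false := h1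
  have e2 : (n.testBit 0 ^^ n.testBit 4 ^^ n.testBit 5) = false := h2
  have e3 : (n.testBit 2 ^^ n.testBit 4 ^^ n.testBit 6) = false := h3
  have e4 : (n.testBit 1 ^^ n.testBit 7 ^^ n.testBit 11) = false := h4
  have e5 : (n.testBit 3 ^^ n.testBit 7 ^^ n.testBit 8) = false := h5
  have e6 : (n.testBit 5 ^^ n.testBit 9 ^^ n.testBit 11) = false := h6
  have e7 : (n.testBit 6 ^^ n.testBit 8 ^^ n.testBit 9) = false := h7
  unfold cubeEv
  rw [e0, e1, e2, e3, e4, e5, e6, e7]
  rfl

def cubeCls (n : ℕ) : Bool :=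
  !(cubeEv n) || (n == 0) || cubeCL.contains n || cubeCL.any (fun y => (y &&& n == y) && (y != n))

theorem cube_class' : ∀ a < 64, ∀ b < 64, cubeCls (64 * a + b) = true := by
  decide +kernel

theorem cube_class : ∀ n < 4096, cubeEv n = true → n ≠ 0 →
    cubeCL.contains n = true ∨ cubeCL.any (fun y => (y &&& n == y) && (y != n)) = true := by
  intro n hn h1 h2
  have h3 := cube_class' (n / 64) (by omega) (n % 64) (by omega)
  rw [Nat.div_add_mod] at h3
  unfold cubeCls at h3
  have h4 : (n == 0) = false := by simpa using h2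
  rw [h1, h4] at h3
  simp only [Bool.not_true, Bool.false_or, Bool.or_eq_true] at h3
  exact h3

theorem cube_mem_of_cycle {n : ℕ} (hn : n < 4096) (h : IsCycle cube (S n)) : n ∈ cubeCL := by
  obtain ⟨h1, h2, h3⟩ := h.even cube_loopless
  have hne : n ≠ 0 := by
    rintro rfl
    obtain ⟨x, hx⟩ := h1
    rw [mem_S] at hx
    simp at hx
  rcases cube_class n hn (cube_even h2) hne with h4 | h4
  · exact List.contains_iff_mem.1 h4
  · rw [List.any_eq_true] at h4
    obtain ⟨y, hy, hy2⟩ := h4
    simp only [Bool.and_eq_true, beq_iff_eq, bne_iff_ne] at hy2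
    have hyl := cubeCL_lt y hy
    obtain ⟨h5, h6, _⟩ := (cube_cycle_of_mem y hy).even cube_loopless
    have := h3 (S y) ((S_subset hyl).2 hy2.1) h5 h6
    exact absurd (S_inj hyl hn this) hy2.2

/-- the cube -/
def cubeCode : Code where
  gr := cube
  CL := cubeCL
  nd := by decide
  lt := cubeCL_lt
  cyc := fun n hn => ⟨cube_mem_of_cycle hn, cube_cycle_of_mem n⟩

/-- the Moebius ladder on eight vertices -/
def ladderCode : Code where
  gr := ladder
  CL := CL
  nd := by decide
  lt := CL_lt
  cyc := fun n hn => ⟨mem_of_cycle hn, cycle_of_mem n⟩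

end Pool.Agent.Y412.SOS
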