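import Pool.Agent.Y412.SOS.CubeVals

set_option autoImplicit false

namespace Pool.Agent.Y412.SOS

open Pool.Agent.H482R3.SOS

theorem cube_false {n : ℕ} {w : ℕ → ℕ → Fin n → ℝ} (hw : Ident cubeCL cubeF cubeG w) : False := by
  have U : ∀ s a, (s, a) ∈ cubeUL → w s a ⬝ᵥ w s a = 1 :=
    fun s a h => hw.unit (cubeUL_ok _ h)
  have P : ∀ d u s a b, (d, u, s, a, b) ∈ cubePL → (s, a) ∈ cubeUL → (s, b) ∈ cubeUL →
      w s a = w s b :=
    fun d u s a b h h1 h2 => hw.pos (cubePL_ok _ h) (cubeUL_ok _ h1) (cubeUL_ok _ h2)
  have N : ∀ d u s a b, (d, u, s, a, b) ∈ cubeNL → (s, a) ∈ cubeUL → (s, b) ∈ cubeUL →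
      w s a = -w s b :=
    fun d u s a b h h1 h2 => hw.neg (cubeNL_ok _ h) (cubeUL_ok _ h1) (cubeUL_ok _ h2)
  have n0_185 : w 0 185 = w 0 169 := (P 169 16 0 169 185 (by decide) (by decide) (by decide)).symm
  have n0_249 : w 0 249 = w 0 169 := (P 185 64 0 185 249 (by decide) (by decide) (by decide)).symm.trans (by rw [n0_185])
  have n0_233 : w 0 233 = w 0 169 := (P 233 16 0 233 249 (by decide) (by decide) (by decide)).trans (by rw [n0_249])
  have n0_489 : w 0 489 = w 0 169 := (P 233 256 0 233 489 (by decide) (by decide) (by decide)).symm.trans (by rw [n0_233])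
  have n0_745 : w 0 745 = w 0 169 := (P 233 512 0 233 745 (by decide) (by decide) (by decide)).symm.trans (by rw [n0_233])
  have n0_425 : w 0 425 = w 0 169 := (P 425 64 0 425 489 (by decide) (by decide) (by decide)).trans (by rw [n0_489])
  have n0_742 : w 0 742 = -w 0 169 := (N 736 15 0 742 745 (by decide) (by decide) (by decide)).trans (by rw [n0_745])
  have n0_441 : w 0 441 = w 0 169 := (P 425 16 0 425 441 (by decide) (by decide) (by decide)).symm.trans (by rw [n0_425])
  have n0_614 : w 0 614 = -w 0 169 := (P 614 128 0 614 742 (by decide) (by decide) (by decide)).trans (by rw [n0_742])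
  have n0_622 : w 0 622 = -w 0 169 := (P 614 8 0 614 622 (by decide) (by decide) (by decide)).symm.trans (by rw [n0_614])
  have n0_870 : w 0 870 = -w 0 169 := (P 614 256 0 614 870 (by decide) (by decide) (by decide)).symm.trans (by rw [n0_614])
  have n0_590 : w 0 590 = -w 0 169 := (P 590 32 0 590 622 (by decide) (by decide) (by decide)).trans (by rw [n0_622])
  have n0_838 : w 0 838 = -w 0 169 := (P 838 32 0 838 870 (by decide) (by decide) (by decide)).trans (by rw [n0_870])
  have n0_591 : w 0 591 = -w 0 169 := (P 590 1 0 590 591 (by decide) (by decide) (by decide)).symm.trans (by rw [n0_590])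
  have n0_606 : w 0 606 = -w 0 169 := (P 590 16 0 590 606 (by decide) (by decide) (by decide)).symm.trans (by rw [n0_590])
  have n0_854 : w 0 854 = -w 0 169 := (P 838 16 0 838 854 (by decide) (by decide) (by decide)).symm.trans (by rw [n0_838])
  have n0_583 : w 0 583 = -w 0 169 := (P 583 8 0 583 591 (by decide) (by decide) (by decide)).trans (by rw [n0_591])
  have n0_598 : w 0 598 = -w 0 169 := (P 598 8 0 598 606 (by decide) (by decide) (by decide)).trans (by rw [n0_606])
  have n0_582 : w 0 582 = -w 0 169 := (P 582 1 0 582 583 (by decide) (by decide) (by decide)).trans (by rw [n0_583])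
  have n2_374 : w 2 374 = w 2 310 := (P 308 66 2 310 374 (by decide) (by decide) (by decide)).symm
  have n2_822 : w 2 822 = w 2 310 := (P 308 514 2 310 822 (by decide) (by decide) (by decide)).symm
  have n2_826 : w 2 826 = w 2 310 := (P 816 14 2 822 826 (by decide) (by decide) (by decide)).symm.trans (by rw [n2_822])
  have n2_810 : w 2 810 = w 2 310 := (P 808 18 2 810 826 (by decide) (by decide) (by decide)).trans (by rw [n2_826])
  have n2_874 : w 2 874 = w 2 310 := (P 808 66 2 810 874 (by decide) (by decide) (by decide)).symm.trans (by rw [n2_810])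
  have n6_318 : w 6 318 = w 6 310 := (P 304 14 6 310 318 (by decide) (by decide) (by decide)).symm
  have n6_822 : w 6 822 = w 6 310 := (P 304 518 6 310 822 (by decide) (by decide) (by decide)).symm
  have n6_870 : w 6 870 = w 6 310 := (P 800 86 6 822 870 (by decide) (by decide) (by decide)).symm.trans (by rw [n6_822])
  have n8_173 : w 8 173 = w 8 169 := (P 161 12 8 169 173 (by decide) (by decide) (by decide)).symm
  have n8_185 : w 8 185 = w 8 169 := (P 161 24 8 169 185 (by decide) (by decide) (by decide)).symm
  have n8_249 : w 8 249 = w 8 169 := (P 177 72 8 185 249 (by decide) (by decide) (by decide)).symm.trans (by rw [n8_185])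
  have n8_233 : w 8 233 = w 8 169 := (P 225 24 8 233 249 (by decide) (by decide) (by decide)).trans (by rw [n8_249])
  have n8_237 : w 8 237 = w 8 169 := (P 225 12 8 233 237 (by decide) (by decide) (by decide)).symm.trans (by rw [n8_233])
  have n8_489 : w 8 489 = w 8 169 := (P 225 264 8 233 489 (by decide) (by decide) (by decide)).symm.trans (by rw [n8_233])
  have n8_378 : w 8 378 = -w 8 169 := (N 352 155 8 378 489 (by decide) (by decide) (by decide)).trans (by rw [n8_489])
  have n8_874 : w 8 874 = -w 8 169 := (P 354 536 8 378 874 (by decide) (by decide) (by decide)).symm.trans (by rw [n8_378])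
  have n8_810 : w 8 810 = -w 8 169 := (P 802 72 8 810 874 (by decide) (by decide) (by decide)).trans (by rw [n8_874])
  have n8_826 : w 8 826 = -w 8 169 := (P 802 24 8 810 826 (by decide) (by decide) (by decide)).symm.trans (by rw [n8_810])
  have n8_794 : w 8 794 = -w 8 169 := (P 786 40 8 794 826 (by decide) (by decide) (by decide)).trans (by rw [n8_826])
  have n8_798 : w 8 798 = -w 8 169 := (P 786 12 8 794 798 (by decide) (by decide) (by decide)).symm.trans (by rw [n8_794])
  have n8_782 : w 8 782 = -w 8 169 := (P 774 24 8 782 798 (by decide) (by decide) (by decide)).trans (by rw [n8_798])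
  have n8_858 : w 8 858 = w 8 842 := (P 834 24 8 842 858 (by decide) (by decide) (by decide)).symm
  have n10_874 : w 10 874 = w 10 378 := (P 352 538 10 378 874 (by decide) (by decide) (by decide)).symm
  have n10_810 : w 10 810 = w 10 378 := (P 800 74 10 810 874 (by decide) (by decide) (by decide)).trans (by rw [n10_874])
  have n10_814 : w 10 814 = w 10 378 := (P 800 14 10 810 814 (by decide) (by decide) (by decide)).symm.trans (by rw [n10_810])
  have n18_374 : w 18 374 = w 18 310 := (P 292 82 18 310 374 (by decide) (by decide) (by decide)).symm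
  have n18_822 : w 18 822 = w 18 310 := (P 292 530 18 310 822 (by decide) (by decide) (by decide)).symm
  have n18_378 : w 18 378 = w 18 310 := (P 352 30 18 374 378 (by decide) (by decide) (by decide)).symm.trans (by rw [n18_374])
  have n32_489 : w 32 489 = w 32 233 := (P 201 288 32 233 489 (by decide) (by decide) (by decide)).symm
  have n32_745 : w 32 745 = w 32 233 := (P 201 544 32 233 745 (by decide) (by decide) (by decide)).symm
  have n32_681 : w 32 681 = w 32 233 := (P 649 96 32 681 745 (by decide) (by decide) (by decide)).trans (by rw [n32_745])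
  have n32_697 : w 32 697 = w 32 233 := (P 649 48 32 681 697 (by decide) (by decide) (by decide)).symm.trans (by rw [n32_681])
  have n32_694 : w 32 694 = -w 32 233 := (N 656 47 32 694 697 (by decide) (by decide) (by decide)).trans (by rw [n32_697])
  have n32_566 : w 32 566 = -w 32 233 := (P 534 160 32 566 694 (by decide) (by decide) (by decide)).trans (by rw [n32_694])
  have n32_822 : w 32 822 = -w 32 233 := (P 534 288 32 566 822 (by decide) (by decide) (by decide)).symm.trans (by rw [n32_566])
  have n32_310 : w 32 310 = -w 32 233 := (P 278 544 32 310 822 (by decide) (by decide) (by decide)).trans (by rw [n32_822])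
  have n32_374 : w 32 374 = -w 32 233 := (P 278 96 32 310 374 (by decide) (by decide) (by decide)).symm.trans (by rw [n32_310])
  have n36_438 : w 36 438 = w 36 310 := (P 274 164 36 310 438 (by decide) (by decide) (by decide)).symm
  have n36_822 : w 36 822 = w 36 310 := (P 274 548 36 310 822 (by decide) (by decide) (by decide)).symm
  have n36_485 : w 36 485 = -w 36 310 := (neg_eq_iff_eq_neg.1 (N 384 119 36 438 485 (by decide) (by decide) (by decide)).symm).trans (by rw [n36_438])
  have n36_566 : w 36 566 = w 36 310 := (P 530 292 36 566 822 (by decide) (by decide) (by decide)).trans (by rw [n36_822])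
  have n36_574 : w 36 574 = w 36 310 := (P 530 44 36 566 574 (by decide) (by decide) (by decide)).symm.trans (by rw [n36_566])
  have n40_489 : w 40 489 = w 40 233 := (P 193 296 40 233 489 (by decide) (by decide) (by decide)).symm
  have n40_745 : w 40 745 = w 40 233 := (P 193 552 40 233 745 (by decide) (by decide) (by decide)).symm
  have n40_378 : w 40 378 = -w 40 233 := (N 320 187 40 378 489 (by decide) (by decide) (by decide)).trans (by rw [n40_489])
  have n40_681 : w 40 681 = w 40 233 := (P 641 104 40 681 745 (by decide) (by decide) (by decide)).trans (by rw [n40_745])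
  have n40_685 : w 40 685 = w 40 233 := (P 641 44 40 681 685 (by decide) (by decide) (by decide)).symm.trans (by rw [n40_681])
  have n66_742 : w 66 742 = w 66 614 := (P 548 194 66 614 742 (by decide) (by decide) (by decide)).symm
  have n66_870 : w 66 870 = w 66 614 := (P 548 322 66 614 870 (by decide) (by decide) (by decide)).symm
  have n66_710 : w 66 710 = w 66 614 := (P 644 98 66 710 742 (by decide) (by decide) (by decide)).trans (by rw [n66_742])
  have n66_711 : w 66 711 = w 66 614 := (P 644 67 66 710 711 (by decide) (by decide) (by decide)).symm.trans (by rw [n66_710])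
  have n68_870 : w 68 870 = -w 68 485 := (neg_eq_iff_eq_neg.1 (N 288 711 68 485 870 (by decide) (by decide) (by decide)).symm)
  have n68_614 : w 68 614 = -w 68 485 := (P 546 324 68 614 870 (by decide) (by decide) (by decide)).trans (by rw [n68_870])
  have n68_622 : w 68 622 = -w 68 485 := (P 546 76 68 614 622 (by decide) (by decide) (by decide)).symm.trans (by rw [n68_614])
  have n68_590 : w 68 590 = -w 68 485 := (P 522 100 68 590 622 (by decide) (by decide) (by decide)).trans (by rw [n68_622])
  have n68_606 : w 68 606 = -w 68 485 := (P 522 84 68 590 606 (by decide) (by decide) (by decide)).symm.trans (by rw [n68_590])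
  have n514_826 : w 514 826 = w 514 810 := (P 296 530 514 810 826 (by decide) (by decide) (by decide)).symm
  have n514_874 : w 514 874 = w 514 810 := (P 296 578 514 810 874 (by decide) (by decide) (by decide)).symm
  have n514_870 : w 514 870 = w 514 810 := (P 352 526 514 870 874 (by decide) (by decide) (by decide)).trans (by rw [n514_874])
  have n520_858 : w 520 858 = -w 520 729 := (neg_eq_iff_eq_neg.1 (N 80 907 520 729 858 (by decide) (by decide) (by decide)).symm)
  have n520_842 : w 520 842 = -w 520 729 := (P 322 536 520 842 858 (by decide) (by decide) (by decide)).trans (by rw [n520_858])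
  have n520_874 : w 520 874 = -w 520 729 := (P 322 552 520 842 874 (by decide) (by decide) (by decide)).symm.trans (by rw [n520_842])
  have n520_810 : w 520 810 = -w 520 729 := (P 290 584 520 810 874 (by decide) (by decide) (by decide)).trans (by rw [n520_874])
  have n520_814 : w 520 814 = -w 520 729 := (P 290 524 520 810 814 (by decide) (by decide) (by decide)).symm.trans (by rw [n520_810])
  have n576_742 : w 576 742 = w 576 614 := (P 38 704 576 614 742 (by decide) (by decide) (by decide)).symm
  have n576_870 : w 576 870 = w 576 614 := (P 38 832 576 614 870 (by decide) (by decide) (by decide)).symm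
  have n576_710 : w 576 710 = w 576 614 := (P 134 608 576 710 742 (by decide) (by decide) (by decide)).trans (by rw [n576_742])
  have n576_726 : w 576 726 = w 576 614 := (P 134 592 576 710 726 (by decide) (by decide) (by decide)).symm.trans (by rw [n576_710])
  have n576_729 : w 576 729 = -w 576 614 := (neg_eq_iff_eq_neg.1 (N 144 591 576 726 729 (by decide) (by decide) (by decide)).symm).trans (by rw [n576_726])
  have q288_606 := hw 288 606 (by norm_num) (by norm_num) (by decide)
  rw [cube_lh_288_606, cube_tms_288_606] at q288_606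
  simp only [List.map_cons, List.map_nil, List.sum_cons, List.sum_nil, add_zero] at q288_606
  simp only [n10_814, n18_378, n18_822, n2_374, n2_810, n2_874, n514_826, n514_870, n66_870, n6_318, n6_870] at q288_606
  try simp only [neg_dotProduct, dotProduct_neg, neg_neg] at q288_606
  push_cast at q288_606
  have b288_606_0 := dot_le (U 66 378 (by decide)) (U 66 614 (by decide))
  have m1 : w 66 614 = -w 66 378 := neg_eq_iff_eq_neg.1 (eq_neg_of_dot (U 66 378 (by decide)) (U 66 614 (by decide))
    (by linarith [U 2 310 (by decide), U 6 310 (by decide), U 10 378 (by decide), U 18 310 (by decide), U 66 378 (by decide), U 66 614 (by decide), U 514 810 (by decide), dotProduct_comm (w 66 614) (w 66 378), b288_606_0.1, b288_606_0.2])).symm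
  have q0_1023 := hw 0 1023 (by norm_num) (by norm_num) (by decide)
  rw [cube_lh_0_1023, cube_tms_0_1023] at q0_1023
  simp only [List.map_cons, List.map_nil, List.sum_cons, List.sum_nil, add_zero] at q0_1023
  simp only [n0_185, n0_425, n0_441, n0_582, n0_598, n0_838, n0_854, n32_310, n32_374, n32_489, n32_566, n32_681, n32_745, n32_822, n36_485, n36_574, n40_378, n40_685, n514_826, n520_814, n576_729, n576_870, n66_711, n68_606, n6_318, n8_173, n8_233, n8_237, n8_249, n8_782, n8_794, n8_798, n8_858] at q0_1023
  try simp only [m1] at q0_1023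
  try simp only [neg_dotProduct, dotProduct_neg, neg_neg] at q0_1023
  push_cast at q0_1023
  have b0_1023_0 := dot_le (U 2 182 (by decide)) (U 2 843 (by decide))
  have b0_1023_1 := dot_le (U 2 246 (by decide)) (U 2 779 (by decide))
  have b0_1023_2 := dot_le (U 6 310 (by decide)) (U 6 711 (by decide))
  have b0_1023_3 := dot_le (U 6 438 (by decide)) (U 6 591 (by decide))
  have b0_1023_4 := dot_le (U 8 169 (by decide)) (U 8 842 (by decide))
  have b0_1023_5 := dot_le (U 16 310 (by decide)) (U 16 729 (by decide))
  have b0_1023_6 := dot_le (U 256 485 (by decide)) (U 256 794 (by decide))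
  have b0_1023_7 := dot_le (U 514 711 (by decide)) (U 514 810 (by decide))
  have b0_1023_8 := dot_le (U 514 742 (by decide)) (U 514 795 (by decide))
  have m2 : w 2 843 = w 2 182 := (eq_of_dot (U 2 182 (by decide)) (U 2 843 (by decide))
    (by linarith [U 0 169 (by decide), U 2 182 (by decide), U 2 246 (by decide), U 2 779 (by decide), U 2 843 (by decide), U 6 310 (by decide), U 6 438 (by decide), U 6 591 (by decide), U 6 711 (by decide), U 8 169 (by decide), U 8 842 (by decide), U 16 310 (by decide), U 16 729 (by decide), U 32 233 (by decide), U 36 310 (by decide), U 40 233 (by decide), U 66 378 (by decide), U 68 485 (by decide), U 256 485 (by decide), U 256 794 (by decide), U 514 711 (by decide), U 514 742 (by decide), U 514 795 (by decide), U 514 810 (by decide), U 520 729 (by decide), U 576 614 (by decide), dotProduct_comm (w 2 779) (w 2 246), dotProduct_comm (w 2 843) (w 2 182), dotProduct_comm (w 6 591) (w 6 438), dotProduct_comm (w 6 711) (w 6 310), dotProduct_comm (w 8 842) (w 8 169), dotProduct_comm (w 16 729) (w 16 310), dotProduct_comm (w 256 794)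 (w 256 485), dotProduct_comm (w 514 795) (w 514 742), dotProduct_comm (w 514 810) (w 514 711), b0_1023_0.1, b0_1023_1.1, b0_1023_2.1, b0_1023_3.1, b0_1023_4.1, b0_1023_5.1, b0_1023_6.1, b0_1023_7.1, b0_1023_8.1, b0_1023_0.2, b0_1023_1.2, b0_1023_2.2, b0_1023_3.2, b0_1023_4.2, b0_1023_5.2, b0_1023_6.2, b0_1023_7.2, b0_1023_8.2])).symm
  have m3 : w 2 779 = w 2 246 := (eq_of_dot (U 2 246 (by decide)) (U 2 779 (by decide))
    (by linarith [U 0 169 (by decide), U 2 182 (by decide), U 2 246 (by decide), U 2 779 (by decide), U 2 843 (by decide), U 6 310 (by decide), U 6 438 (by decide), U 6 591 (by decide), U 6 711 (by decide), U 8 169 (by decide), U 8 842 (by decide), U 16 310 (by decide), U 16 729 (by decide), U 32 233 (by decide), U 36 310 (by decide), U 40 233 (by decide), U 66 378 (by decide), U 68 485 (by decide), U 256 485 (by decide), U 256 794 (by decide), U 514 711 (by decide), U 514 742 (by decide), U 514 795 (by decide), U 514 810 (by decide), U 520 729 (by decide), U 576 614 (by decide), dotProduct_comm (w 2 779) (w 2 246), dotProduct_comm (w 2 843)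 (w 2 182), dotProduct_comm (w 6 591) (w 6 438), dotProduct_comm (w 6 711) (w 6 310), dotProduct_comm (w 8 842) (w 8 169), dotProduct_comm (w 16 729) (w 16 310), dotProduct_comm (w 256 794) (w 256 485), dotProduct_comm (w 514 795) (w 514 742), dotProduct_comm (w 514 810) (w 514 711), b0_1023_0.1, b0_1023_1.1, b0_1023_2.1, b0_1023_3.1, b0_1023_4.1, b0_1023_5.1, b0_1023_6.1, b0_1023_7.1, b0_1023_8.1, b0_1023_0.2, b0_1023_1.2, b0_1023_2.2, b0_1023_3.2, b0_1023_4.2, b0_1023_5.2, b0_1023_6.2, b0_1023_7.2, b0_1023_8.2])).symm
  have m4 : w 6 711 = w 6 310 := (eq_of_dot (U 6 310 (by decide)) (U 6 711 (by decide))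
    (by linarith [U 0 169 (by decide), U 2 182 (by decide), U 2 246 (by decide), U 2 779 (by decide), U 2 843 (by decide), U 6 310 (by decide), U 6 438 (by decide), U 6 591 (by decide), U 6 711 (by decide), U 8 169 (by decide), U 8 842 (by decide), U 16 310 (by decide), U 16 729 (by decide), U 32 233 (by decide), U 36 310 (by decide), U 40 233 (by decide), U 66 378 (by decide), U 68 485 (by decide), U 256 485 (by decide), U 256 794 (by decide), U 514 711 (by decide), U 514 742 (by decide), U 514 795 (by decide), U 514 810 (by decide), U 520 729 (by decide), U 576 614 (by decide), dotProduct_comm (w 2 779) (w 2 246), dotProduct_comm (w 2 843) (w 2 182), dotProduct_comm (w 6 591) (w 6 438), dotProduct_comm (w 6 711) (w 6 310), dotProduct_comm (w 8 842) (w 8 169), dotProduct_comm (w 16 729) (w 16 310), dotProduct_comm (w 256 794) (w 256 485), dotProduct_comm (w 514 795) (w 514 742), dotProduct_comm (w 514 810) (w 514 711), b0_1023_0.1, b0_1023_1.1, b0_1023_2.1, b0_1023_3.1, b0_1023_4.1, b0_1023_5.1, b0_1023_6.1, b0_1023_7.1, b0_1023_8.1, b0_1023_0.2, b0_1023_1.2,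 b0_1023_2.2, b0_1023_3.2, b0_1023_4.2, b0_1023_5.2, b0_1023_6.2, b0_1023_7.2, b0_1023_8.2])).symm
  have m5 : w 6 591 = w 6 438 := (eq_of_dot (U 6 438 (by decide)) (U 6 591 (by decide))
    (by linarith [U 0 169 (by decide), U 2 182 (by decide), U 2 246 (by decide), U 2 779 (by decide), U 2 843 (by decide), U 6 310 (by decide), U 6 438 (by decide), U 6 591 (by decide), U 6 711 (by decide), U 8 169 (by decide), U 8 842 (by decide), U 16 310 (by decide), U 16 729 (by decide), U 32 233 (by decide), U 36 310 (by decide), U 40 233 (by decide), U 66 378 (by decide), U 68 485 (by decide), U 256 485 (by decide), U 256 794 (by decide), U 514 711 (by decide), U 514 742 (by decide), U 514 795 (by decide), U 514 810 (by decide), U 520 729 (by decide), U 576 614 (by decide), dotProduct_comm (w 2 779) (w 2 246), dotProduct_comm (w 2 843) (w 2 182), dotProduct_comm (w 6 591) (w 6 438), dotProduct_comm (w 6 711) (w 6 310), dotProduct_comm (w 8 842) (w 8 169), dotProduct_comm (w 16 729) (w 16 310), dotProduct_comm (w 256 794) (w 256 485), dotProduct_comm (w 514 795) (w 514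 742), dotProduct_comm (w 514 810) (w 514 711), b0_1023_0.1, b0_1023_1.1, b0_1023_2.1, b0_1023_3.1, b0_1023_4.1, b0_1023_5.1, b0_1023_6.1, b0_1023_7.1, b0_1023_8.1, b0_1023_0.2, b0_1023_1.2, b0_1023_2.2, b0_1023_3.2, b0_1023_4.2, b0_1023_5.2, b0_1023_6.2, b0_1023_7.2, b0_1023_8.2])).symm
  have m6 : w 8 842 = w 8 169 := (eq_of_dot (U 8 169 (by decide)) (U 8 842 (by decide))
    (by linarith [U 0 169 (by decide), U 2 182 (by decide), U 2 246 (by decide), U 2 779 (by decide), U 2 843 (by decide), U 6 310 (by decide), U 6 438 (by decide), U 6 591 (by decide), U 6 711 (by decide), U 8 169 (by decide), U 8 842 (by decide), U 16 310 (by decide), U 16 729 (by decide), U 32 233 (by decide), U 36 310 (by decide), U 40 233 (by decide), U 66 378 (by decide), U 68 485 (by decide), U 256 485 (by decide), U 256 794 (by decide), U 514 711 (by decide), U 514 742 (by decide), U 514 795 (by decide), U 514 810 (by decide), U 520 729 (by decide), U 576 614 (by decide), dotProduct_comm (w 2 779) (w 2 246), dotProduct_comm (w 2 843) (w 2 182), dotProduct_comm (w 6 591) (w 6 438),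 dotProduct_comm (w 6 711) (w 6 310), dotProduct_comm (w 8 842) (w 8 169), dotProduct_comm (w 16 729) (w 16 310), dotProduct_comm (w 256 794) (w 256 485), dotProduct_comm (w 514 795) (w 514 742), dotProduct_comm (w 514 810) (w 514 711), b0_1023_0.1, b0_1023_1.1, b0_1023_2.1, b0_1023_3.1, b0_1023_4.1, b0_1023_5.1, b0_1023_6.1, b0_1023_7.1, b0_1023_8.1, b0_1023_0.2, b0_1023_1.2, b0_1023_2.2, b0_1023_3.2, b0_1023_4.2, b0_1023_5.2, b0_1023_6.2, b0_1023_7.2, b0_1023_8.2])).symm
  have m7 : w 16 729 = w 16 310 := (eq_of_dot (U 16 310 (by decide)) (U 16 729 (by decide))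
    (by linarith [U 0 169 (by decide), U 2 182 (by decide), U 2 246 (by decide), U 2 779 (by decide), U 2 843 (by decide), U 6 310 (by decide), U 6 438 (by decide), U 6 591 (by decide), U 6 711 (by decide), U 8 169 (by decide), U 8 842 (by decide), U 16 310 (by decide), U 16 729 (by decide), U 32 233 (by decide), U 36 310 (by decide), U 40 233 (by decide), U 66 378 (by decide), U 68 485 (by decide), U 256 485 (by decide), U 256 794 (by decide), U 514 711 (by decide), U 514 742 (by decide), U 514 795 (by decide), U 514 810 (by decide), U 520 729 (by decide), U 576 614 (by decide), dotProduct_comm (w 2 779) (w 2 246), dotProduct_comm (w 2 843) (w 2 182), dotProduct_comm (w 6 591) (w 6 438), dotProduct_comm (w 6 711) (w 6 310), dotProduct_comm (w 8 842) (w 8 169), dotProduct_comm (w 16 729) (w 16 310), dotProduct_comm (w 256 794) (w 256 485), dotProduct_comm (w 514 795) (w 514 742), dotProduct_comm (w 514 810) (w 514 711), b0_1023_0.1, b0_1023_1.1, b0_1023_2.1, b0_1023_3.1, b0_1023_4.1, b0_1023_5.1, b0_1023_6.1, b0_1023_7.1, b0_1023_8.1, b0_1023_0.2, b0_1023_1.2,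 b0_1023_2.2, b0_1023_3.2, b0_1023_4.2, b0_1023_5.2, b0_1023_6.2, b0_1023_7.2, b0_1023_8.2])).symm
  have m8 : w 256 794 = w 256 485 := (eq_of_dot (U 256 485 (by decide)) (U 256 794 (by decide))
    (by linarith [U 0 169 (by decide), U 2 182 (by decide), U 2 246 (by decide), U 2 779 (by decide), U 2 843 (by decide), U 6 310 (by decide), U 6 438 (by decide), U 6 591 (by decide), U 6 711 (by decide), U 8 169 (by decide), U 8 842 (by decide), U 16 310 (by decide), U 16 729 (by decide), U 32 233 (by decide), U 36 310 (by decide), U 40 233 (by decide), U 66 378 (by decide), U 68 485 (by decide), U 256 485 (by decide), U 256 794 (by decide), U 514 711 (by decide), U 514 742 (by decide), U 514 795 (by decide), U 514 810 (by decide), U 520 729 (by decide), U 576 614 (by decide), dotProduct_comm (w 2 779) (w 2 246), dotProduct_comm (w 2 843) (w 2 182), dotProduct_comm (w 6 591) (w 6 438), dotProduct_comm (w 6 711) (w 6 310), dotProduct_comm (w 8 842) (w 8 169), dotProduct_comm (w 16 729) (w 16 310), dotProduct_comm (w 256 794) (w 256 485), dotProduct_comm (w 514 795)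 (w 514 742), dotProduct_comm (w 514 810) (w 514 711), b0_1023_0.1, b0_1023_1.1, b0_1023_2.1, b0_1023_3.1, b0_1023_4.1, b0_1023_5.1, b0_1023_6.1, b0_1023_7.1, b0_1023_8.1, b0_1023_0.2, b0_1023_1.2, b0_1023_2.2, b0_1023_3.2, b0_1023_4.2, b0_1023_5.2, b0_1023_6.2, b0_1023_7.2, b0_1023_8.2])).symm
  have m9 : w 514 810 = w 514 711 := (eq_of_dot (U 514 711 (by decide)) (U 514 810 (by decide))
    (by linarith [U 0 169 (by decide), U 2 182 (by decide), U 2 246 (by decide), U 2 779 (by decide), U 2 843 (by decide), U 6 310 (by decide), U 6 438 (by decide), U 6 591 (by decide), U 6 711 (by decide), U 8 169 (by decide), U 8 842 (by decide), U 16 310 (by decide), U 16 729 (by decide), U 32 233 (by decide), U 36 310 (by decide), U 40 233 (by decide), U 66 378 (by decide), U 68 485 (by decide), U 256 485 (by decide), U 256 794 (by decide), U 514 711 (by decide), U 514 742 (by decide), U 514 795 (by decide), U 514 810 (by decide), U 520 729 (by decide), U 576 614 (by decide), dotProduct_comm (w 2 779) (w 2 246), dotProduct_comm (w 2 843) (w 2 182), dotProduct_comm (w 6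 591) (w 6 438), dotProduct_comm (w 6 711) (w 6 310), dotProduct_comm (w 8 842) (w 8 169), dotProduct_comm (w 16 729) (w 16 310), dotProduct_comm (w 256 794) (w 256 485), dotProduct_comm (w 514 795) (w 514 742), dotProduct_comm (w 514 810) (w 514 711), b0_1023_0.1, b0_1023_1.1, b0_1023_2.1, b0_1023_3.1, b0_1023_4.1, b0_1023_5.1, b0_1023_6.1, b0_1023_7.1, b0_1023_8.1, b0_1023_0.2, b0_1023_1.2, b0_1023_2.2, b0_1023_3.2, b0_1023_4.2, b0_1023_5.2, b0_1023_6.2, b0_1023_7.2, b0_1023_8.2])).symm
  have m10 : w 514 795 = w 514 742 := (eq_of_dot (U 514 742 (by decide)) (U 514 795 (by decide))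
    (by linarith [U 0 169 (by decide), U 2 182 (by decide), U 2 246 (by decide), U 2 779 (by decide), U 2 843 (by decide), U 6 310 (by decide), U 6 438 (by decide), U 6 591 (by decide), U 6 711 (by decide), U 8 169 (by decide), U 8 842 (by decide), U 16 310 (by decide), U 16 729 (by decide), U 32 233 (by decide), U 36 310 (by decide), U 40 233 (by decide), U 66 378 (by decide), U 68 485 (by decide), U 256 485 (by decide), U 256 794 (by decide), U 514 711 (by decide), U 514 742 (by decide), U 514 795 (by decide), U 514 810 (by decide), U 520 729 (by decide), U 576 614 (by decide), dotProduct_comm (w 2 779) (w 2 246), dotProduct_comm (w 2 843) (w 2 182), dotProduct_comm (w 6 591) (w 6 438), dotProduct_comm (w 6 711) (w 6 310), dotProduct_comm (w 8 842) (w 8 169), dotProduct_comm (w 16 729) (w 16 310), dotProduct_comm (w 256 794) (w 256 485), dotProduct_comm (w 514 795) (w 514 742), dotProduct_comm (w 514 810) (w 514 711), b0_1023_0.1, b0_1023_1.1, b0_1023_2.1, b0_1023_3.1, b0_1023_4.1, b0_1023_5.1, b0_1023_6.1, b0_1023_7.1, b0_1023_8.1, b0_1023_0.2, b0_1023_1.2,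 b0_1023_2.2, b0_1023_3.2, b0_1023_4.2, b0_1023_5.2, b0_1023_6.2, b0_1023_7.2, b0_1023_8.2])).symm
  have q64_955 := hw 64 955 (by norm_num) (by norm_num) (by decide)
  rw [cube_lh_64_955, cube_tms_64_955] at q64_955
  simp only [List.map_cons, List.map_nil, List.sum_cons, List.sum_nil, add_zero] at q64_955
  simp only [n40_378, n40_745, n520_874, n8_233, n8_249, n8_858] at q64_955
  try simp only [m1, m2, m3, m4, m5, m6, m7, m8, m9, m10] at q64_955
  try simp only [neg_dotProduct, dotProduct_neg, neg_neg] at q64_955
  push_cast at q64_955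
  have b64_955_0 := dot_le (U 24 378 (by decide)) (U 24 729 (by decide))
  linarith [U 8 169 (by decide), U 24 378 (by decide), U 24 729 (by decide), U 40 233 (by decide), U 520 729 (by decide), dotProduct_comm (w 24 729) (w 24 378), b64_955_0.1, b64_955_0.2]

end Pool.Agent.Y412.SOS
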