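import Pool.Agent.H482R3.SOS.Lit

set_option autoImplicit false

/-!
# Sums of squares with arbitrary real coefficients: definitions
-/

namespace Pool.Agent.Y412.SOS

open MvPolynomial Pool.Agent.H482R3.SOS

section

variable {V E : Type} [Fintype E] [DecidableEq E]

/-- `A ∈ 𝒜(S)`. -/
def MemA (lit : Bool) (ends : E → Sym2 V) (e f : E) (S A : Finset E) : Prop :=
  ∃ Z, InA lit ends e f S A Z

open Classical in
/-- `ΔG{e, f}` is a sum of squares in the weak sense: there are a number `n` of squares and
arbitrary real coefficients `c j S A` with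
`ΔG{e, f} = ∑_{S ∈ 𝒮} y^S ∑_{j < n} (∑_{A ∈ 𝒜(S)} c j S A * y^{A ∖ S})²`. -/
def IsRealSOS (lit : Bool) (ends : E → Sym2 V) (e f : E) : Prop :=
  ∃ (n : ℕ) (c : Fin n → Finset E → Finset E → ℝ),
    map (Int.castRingHom ℝ) (rayleigh ends e f) = ∑ S : Finset E, if InS ends e f S then
      (∏ g ∈ S, X g) * ∑ j, (∑ A : Finset E,
        if MemA lit ends e f S A then C (c j S A) * ∏ g ∈ A \ S, X g else 0) ^ 2 else 0

end

/-- The graph of the 3-dimensional cube. The vertex `v < 8` is the vertex of the cube whose
coordinates are the three binary digits of `v`, and two vertices are joined when they differ in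
exactly one coordinate. The two skew edges `{000, 001}` and `{100, 110}` are listed last, with the
indices `10` and `11`. -/
def cube : Fin 12 → Sym2 (Fin 8) :=
  ![s(0, 2), s(0, 4), s(1, 3), s(1, 5), s(2, 3), s(2, 6), s(3, 7), s(4, 5), s(5, 7), s(6, 7),
    s(0, 1), s(4, 6)]

end Pool.Agent.Y412.SOS
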