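import Pool.Agent.Y412.SOS.Code

set_option autoImplicit false

/-!
# The coefficient identities in terms of codes
-/

namespace Pool.Agent.Y412.SOS

open Pool.Agent.H482R3.SOS

theorem sum_flatMapR {α β : Type*} (l : List α) (f : α → List β) (g : β → ℝ) :
    ((l.flatMap f).map g).sum = (l.map fun x => ((f x).map g).sum).sum := by
  induction l with
  | nil => rfl
  | cons a l ih => rw [List.flatMap_cons, List.map_append, List.sum_append, ih]; rfl

theorem map_sum_congrR {α R : Type*} [AddMonoid R] {l : List α} {f g : α → R}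
    (h : ∀ x ∈ l, f x = g x) : (l.map f).sum = (l.map g).sum := by
  rw [List.map_congr_left h]

/-- the right hand side of the coefficient identity -/
noncomputable def raw {n : ℕ} (w : ℕ → ℕ → Fin n → ℝ) (d u : ℕ) : ℝ :=
  ((sb u).map fun s => ((sb (u ^^^ s)).map fun x =>
    w s (s ||| d ||| x) ⬝ᵥ w s (s ||| d ||| (u ^^^ s ^^^ x))).sum).sum

theorem raw_eq_tms {CL : List ℕ} {g : ℕ → ℕ} {n : ℕ} (w : ℕ → ℕ → Fin n → ℝ)
    (hw : ∀ s a, s < 1024 → a < 1024 → st g s a = false → w s a = 0)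
    (hS : ∀ s a, s < 1024 → a < 1024 → inS CL s = false → st g s a = false)
    {d u : ℕ} (hd : d < 1024) (hu : u < 1024) :
    raw w d u = ((tms CL g d u).map fun t => w t.1 t.2.1 ⬝ᵥ w t.1 t.2.2).sum := by
  unfold raw tms
  rw [sum_flatMapR]
  apply map_sum_congrR
  intro s hs
  rw [mem_sb] at hs
  have hus : u ^^^ s < 1024 := xor_lt hu hs.1
  rcases h4 : inS CL s with _ | _
  · simp only [cond_false, List.map_nil, List.sum_nil]
    apply List.sum_eq_zero
    intro y hy
    rw [List.mem_map] at hy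
    obtain ⟨x, hx, rfl⟩ := hy
    rw [mem_sb] at hx
    have h5 : s ||| d ||| x < 1024 := or_lt (or_lt hs.1 hd) hx.1
    rw [hw s _ hs.1 h5 (hS s _ hs.1 h5 h4), zero_dotProduct]
  · simp only [cond_true]
    rw [sum_flatMapR]
    apply map_sum_congrR
    intro x hx
    rw [mem_sb] at hx
    have h5 : s ||| d ||| x < 1024 := or_lt (or_lt hs.1 hd) hx.1
    have h6 : s ||| d ||| (u ^^^ s ^^^ x) < 1024 := or_lt (or_lt hs.1 hd) (xor_lt hus hx.1)
    change w s (s ||| d ||| x) ⬝ᵥ w s (s ||| d ||| (u ^^^ s ^^^ x)) =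
      ((tm g s (s ||| d ||| x) (s ||| d ||| (u ^^^ s ^^^ x))).map
        fun t => w t.1 t.2.1 ⬝ᵥ w t.1 t.2.2).sum
    unfold tm
    rcases h7 : st g s (s ||| d ||| x) with _ | _
    · rw [hw s _ hs.1 h5 h7, zero_dotProduct]
      simp
    · rcases h8 : st g s (s ||| d ||| (u ^^^ s ^^^ x)) with _ | _
      · rw [hw s _ hs.1 h6 h8, dotProduct_zero]
        simp
      · simp

theorem st_of_inS {CL : List ℕ} (hnd : CL.Nodup) {g : ℕ → ℕ}
    (hg : ∀ a < 1024, g a = cy CL a) (s a : ℕ) (ha : a < 1024)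
    (h : inS CL s = false) : st g s a = false := by
  rcases h1 : st g s a with _ | _
  · rfl
  · exfalso
    obtain ⟨z, hz, hsz⟩ := (st_iff (hg a ha) s).1 h1
    obtain ⟨h5, h6, h7, h8⟩ := (cy_spec hnd a z).1 hz
    have h9 : inS CL s = true := by
      unfold inS
      rw [List.any_eq_true]
      refine ⟨z, h5, ?_⟩
      have h10 : Nat.land (Nat.lor s 3072) z = Nat.lor s 3072 := by
        change (s ||| 3072) &&& z = s ||| 3072
        rw [Nat.and_or_distrib_right, h7, hsz]
      rw [h10]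
      exact Nat.beq_refl _
    rw [h] at h9
    exact absurd h9 (by decide)

/-- check that `a` contains at most one cycle through `e` and `f`, and that some coefficients
of the Rayleigh difference vanish -/
def ck (CL : List ℕ) (f : ℕ → Bool) (g : ℕ → ℕ) (a : ℕ) : Bool :=
  bif f a then
    match CL.filter fun z => Nat.beq (Nat.land z (Nat.lor a 3072)) z &&
      Nat.beq (Nat.land 3072 z) 3072 with
    | [] => true
    | [z] => bif Nat.beq (g a) 0 then
        (sb (Nat.land z 1023)).all fun s => decide (lh f (Nat.xor a s) s = 0) else true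
    | _ => false
  else true

theorem ck_spec {CL : List ℕ} {f : ℕ → Bool} {g : ℕ → ℕ} {a : ℕ} (h : ck CL f g a = true)
    (hfo : f a = true)
    {z : ℕ} (hz : z ∈ CL) (h1 : z &&& (a ||| 3072) = z) (h2 : 3072 &&& z = 3072) :
    (∀ y ∈ CL, y &&& (a ||| 3072) = y → 3072 &&& y = 3072 → y = z) ∧
      (g a = 0 → ∀ s ∈ sb (z &&& 1023), lh f (a ^^^ s) s = 0) := by
  have hm : ∀ y, y ∈ (CL.filter fun z => Nat.beq (Nat.land z (Nat.lor a 3072)) z &&
      Nat.beq (Nat.land 3072 z) 3072) ↔ y ∈ CL ∧ y &&& (a ||| 3072) = y ∧ 3072 &&& y = 3072 := by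
    intro y
    rw [List.mem_filter, Bool.and_eq_true]
    constructor
    · rintro ⟨h3, h4, h5⟩
      exact ⟨h3, Nat.eq_of_beq_eq_true h4, Nat.eq_of_beq_eq_true h5⟩
    · rintro ⟨h3, h4, h5⟩
      refine ⟨h3, ?_, ?_⟩
      · have : Nat.land y (Nat.lor a 3072) = y := h4
        rw [this]
        exact Nat.beq_refl y
      · have : Nat.land 3072 y = 3072 := h5
        rw [this]
        exact Nat.beq_refl _
  unfold ck at h
  rw [hfo, cond_true] at h
  split at h
  · rename_i h3
    have h4 := (hm z).2 ⟨hz, h1, h2⟩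
    rw [h3] at h4
    simp at h4
  · rename_i y h3
    have h4 := (hm z).2 ⟨hz, h1, h2⟩
    rw [h3, List.mem_singleton] at h4
    subst h4
    refine ⟨?_, ?_⟩
    · intro y hy hy1 hy2
      have h5 := (hm y).2 ⟨hy, hy1, hy2⟩
      rw [h3, List.mem_singleton] at h5
      exact h5
    · intro hga s hs
      rw [hga] at h
      have h6 : ((sb (Nat.land z 1023)).all
        fun s => decide (lh f (Nat.xor a s) s = 0)) = true := h
      rw [List.all_eq_true] at h6
      exact of_decide_eq_true (h6 s hs)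
  · exact absurd h (by decide)

theorem t3072 {i : ℕ} (h : i < 10) : Nat.testBit 3072 i = false := by
  interval_cases i <;> decide

theorem bit_lt {s i : ℕ} (hs : s < 1024) (h : s.testBit i = true) : i < 10 := by
  by_contra h3
  have h4 : (1024 : ℕ) ≤ 2 ^ i := by
    calc (1024 : ℕ) = 2 ^ 10 := by norm_num
      _ ≤ 2 ^ i := Nat.pow_le_pow_right (by norm_num) (by omega)
  rw [Nat.testBit_lt_two_pow (by omega)] at h
  exact absurd h (by decide)

theorem sub_iff {s a : ℕ} : s &&& a = s ↔ ∀ i, s.testBit i = true → a.testBit i = true := by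
  constructor
  · intro h i hi
    rw [← h, Nat.testBit_and] at hi
    simp only [Bool.and_eq_true] at hi
    exact hi.2
  · intro h
    apply Nat.eq_of_testBit_eq
    intro i
    rw [Nat.testBit_and]
    rcases hx : s.testBit i with _ | _
    · rfl
    · rw [h i hx]
      rfl

theorem sub_low {s a : ℕ} (hs : s < 1024) (h : s &&& (a ||| 3072) = s) : s &&& a = s := by
  rw [sub_iff] at h ⊢
  intro i hi
  have h1 := h i hi
  rw [Nat.testBit_or, t3072 (bit_lt hs hi), Bool.or_false] at h1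
  exact h1

theorem sub_trans {a b c : ℕ} (h1 : a &&& b = a) (h2 : b &&& c = b) : a &&& c = a := by
  rw [sub_iff] at h1 h2 ⊢
  exact fun i hi => h2 i (h1 i hi)

theorem sub_or {a b c : ℕ} (h1 : a &&& c = a) (h2 : b &&& c = b) : (a ||| b) &&& c = a ||| b := by
  rw [Nat.and_or_distrib_right, h1, h2]

theorem vanish {CL : List ℕ} (hnd : CL.Nodup) {f : ℕ → Bool} {g : ℕ → ℕ}
    (hg : ∀ a < 1024, g a = cy CL a) (hck : ∀ a < 1024, ck CL f g a = true) {n : ℕ}
    (w : ℕ → ℕ → Fin n → ℝ)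
    (hmem : ∀ s a, s < 1024 → a < 1024 → w s a ≠ 0 → f a = true ∧
      ∃ z ∈ CL, z &&& (a ||| 3072) = z ∧ 3072 &&& z = 3072 ∧ s &&& z = s)
    (hid : ∀ d u, d < 1024 → u < 1024 → d &&& u = 0 → ((lh f d u : ℤ) : ℝ) = raw w d u) :
    ∀ s, s < 1024 → ∀ a, a < 1024 → st g s a = false → w s a = 0 := by
  intro s
  induction s using Nat.strong_induction_on with
  | _ s ih =>
  intro hs a ha hst
  by_contra hne
  obtain ⟨hfo, z, hz, hz1, hz2, hz3⟩ := hmem s a hs ha hne
  obtain ⟨huniq, hlh⟩ := ck_spec (hck a ha) hfo hz hz1 hz2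
  have hga : g a = 0 := by
    by_contra h0
    have h1 : cy CL a = g a ∧ g a ≠ 0 := ⟨(hg a ha).symm, h0⟩
    have h2 := (cy_spec hnd a (g a)).1 h1
    have h3 : z = g a := h2.2.2.2 z hz hz1
    have h4 : st g s a = true := (st_iff (hg a ha) s).2 ⟨g a, h1, by rw [← h3]; exact hz3⟩
    rw [hst] at h4
    exact absurd h4 (by decide)
  have hsa : s &&& a = s := sub_low hs (sub_trans hz3 hz1)
  have hsz : s ∈ sb (z &&& 1023) := by
    rw [mem_sb]
    refine ⟨hs, ?_⟩
    rw [sub_iff] at hz3 ⊢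
    intro i hi
    rw [Nat.testBit_and, hz3 i hi]
    have h10 := bit_lt hs hi
    have : ∀ i < 10, Nat.testBit 1023 i = true := by decide
    rw [this i h10]
    rfl
  have h0 := hlh hga s hsz
  have hd : a ^^^ s < 1024 := xor_lt ha hs
  have hds : (a ^^^ s) &&& s = 0 := by
    apply Nat.eq_of_testBit_eq
    intro i
    rw [Nat.testBit_and, Nat.testBit_xor, Nat.zero_testBit]
    rcases hx : s.testBit i with _ | _
    · simp
    · rw [sub_iff] at hsa
      rw [hsa i hx]
      rfl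
  have h1 := hid (a ^^^ s) s hd hs hds
  rw [h0] at h1
  unfold raw at h1
  rw [← List.sum_toFinset _ (nodup_sb s), Finset.sum_eq_single s] at h1
  · have h2 : sb (s ^^^ s) = [0] := by
      rw [Nat.xor_self]
      decide
    rw [h2] at h1
    simp only [List.map_cons, List.map_nil, List.sum_cons, List.sum_nil, add_zero] at h1
    have h3 : s ||| (a ^^^ s) ||| 0 = a := by
      apply Nat.eq_of_testBit_eq
      intro i
      rw [Nat.testBit_or, Nat.testBit_or, Nat.testBit_xor, Nat.zero_testBit]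
      rcases hx : s.testBit i with _ | _
      · simp
      · rw [sub_iff] at hsa
        rw [hsa i hx]
        rfl
    have h4 : s ^^^ s ^^^ 0 = 0 := by rw [Nat.xor_self, Nat.zero_xor]
    rw [h4, h3] at h1
    push_cast at h1
    exact hne (dotProduct_self_eq_zero.1 h1.symm)
  · intro s' hs' hne'
    rw [List.mem_toFinset, mem_sb] at hs'
    apply List.sum_eq_zero
    intro y hy
    rw [List.mem_map] at hy
    obtain ⟨x, hx, rfl⟩ := hy
    rw [mem_sb] at hx
    have hlt : s' < s := lt_of_le_of_ne (by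
      have : s' &&& s ≤ s := Nat.and_le_right
      rw [hs'.2] at this
      exact this) hne'
    have h5 : s' ||| (a ^^^ s) ||| x < 1024 := or_lt (or_lt hs'.1 hd) hx.1
    have h6 : s' ||| (a ^^^ s) ||| (s ^^^ s' ^^^ x) < 1024 :=
      or_lt (or_lt hs'.1 hd) (xor_lt (xor_lt hs hs'.1) hx.1)
    rcases h7 : st g s' (s' ||| (a ^^^ s) ||| x) with _ | _
    · rw [ih s' hlt hs'.1 _ h5 h7, zero_dotProduct]
    rcases h8 : st g s' (s' ||| (a ^^^ s) ||| (s ^^^ s' ^^^ x)) with _ | _
    · rw [ih s' hlt hs'.1 _ h6 h8, dotProduct_zero]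
    exfalso
    obtain ⟨z1, hz1', _⟩ := (st_iff (hg _ h5) s').1 h7
    obtain ⟨z2, hz2', _⟩ := (st_iff (hg _ h6) s').1 h8
    obtain ⟨p1, p2, p3, _⟩ := (cy_spec hnd _ z1).1 hz1'
    obtain ⟨q1, q2, q3, _⟩ := (cy_spec hnd _ z2).1 hz2'
    have sx : s' &&& a = s' := sub_trans hs'.2 hsa
    have sd : (a ^^^ s) &&& a = a ^^^ s := by
      rw [sub_iff] at hsa ⊢
      intro i hi
      rw [Nat.testBit_xor] at hi
      rcases hx : s.testBit i with _ | _
      · rw [hx, Bool.xor_false] at hi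
        exact hi
      · exact hsa i hx
    have sxs : (s ^^^ s') &&& s = s ^^^ s' := by
      have := hs'.2
      rw [sub_iff] at this ⊢
      intro i hi
      rw [Nat.testBit_xor] at hi
      rcases hx : s'.testBit i with _ | _
      · rw [hx, Bool.xor_false] at hi
        exact hi
      · exact this i hx
    have sx2 : x &&& a = x := sub_trans hx.2 (sub_trans sxs hsa)
    have sxx : (s ^^^ s' ^^^ x) &&& a = s ^^^ s' ^^^ x := by
      refine sub_trans ?_ (sub_trans sxs hsa)
      have := hx.2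
      rw [sub_iff] at this ⊢
      intro i hi
      rw [Nat.testBit_xor] at hi
      rcases hx : x.testBit i with _ | _
      · rw [hx, Bool.xor_false] at hi
        exact hi
      · exact this i hx
    have big : ∀ {c : ℕ}, c &&& a = c → (c ||| 3072) &&& (a ||| 3072) = c ||| 3072 := by
      intro c hc
      apply sub_or
      · rw [sub_iff] at hc ⊢
        intro i hi
        rw [Nat.testBit_or, hc i hi]
        rfl
      · rw [sub_iff]
        intro i hi
        rw [Nat.testBit_or, hi, Bool.or_true]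
    have e1 : z1 = z := huniq z1 p1 (sub_trans p2 (big (sub_or (sub_or sx sd) sx2))) p3
    have e2 : z2 = z := huniq z2 q1 (sub_trans q2 (big (sub_or (sub_or sx sd) sxx))) q3
    subst e1
    rw [e2] at q2
    have f1 := sub_low hs (sub_trans hz3 p2)
    have f2 := sub_low hs (sub_trans hz3 q2)
    apply hne'
    apply Nat.eq_of_testBit_eq
    intro i
    rcases hx3 : s.testBit i with _ | _
    · rcases hx4 : s'.testBit i with _ | _
      · rfl
      · have := sub_iff.1 hs'.2 i hx4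
        rw [hx3] at this
        exact absurd this (by decide)
    · rcases hx4 : s'.testBit i with _ | _
      · exfalso
        have g1 := sub_iff.1 f1 i hx3
        have g2 := sub_iff.1 f2 i hx3
        have g3 := sub_iff.1 hsa i hx3
        rw [Nat.testBit_or, Nat.testBit_or, Nat.testBit_xor, hx3, hx4, g3] at g1
        rw [Nat.testBit_or, Nat.testBit_or, Nat.testBit_xor, Nat.testBit_xor, Nat.testBit_xor,
          hx3, hx4, g3] at g2
        rcases hx5 : x.testBit i with _ | _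
        · rw [hx5] at g1
          exact absurd g1 (by decide)
        · rw [hx5] at g2
          exact absurd g2 (by decide)
      · rfl
  · intro h
    exfalso
    apply h
    rw [List.mem_toFinset, mem_sb]
    exact ⟨hs, Nat.and_self s⟩

/-- the coefficient identities hold for the vectors `w` -/
def Ident (CL : List ℕ) (f : ℕ → Bool) (g : ℕ → ℕ) {n : ℕ} (w : ℕ → ℕ → Fin n → ℝ) : Prop :=
  ∀ d u, d < 1024 → u < 1024 → d &&& u = 0 → ((lh f d u : ℤ) : ℝ) =
    ((tms CL g d u).map fun t => w t.1 t.2.1 ⬝ᵥ w t.1 t.2.2).sum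

theorem sum_indR (l : List ℕ) (p q : ℕ → Bool) :
    (l.map fun x => ((if p x = true then (1 : ℤ) else 0) - (if q x = true then 1 else 0))).sum =
      (l.countP p : ℤ) - (l.countP q : ℤ) := by
  induction l with
  | nil => rfl
  | cons a l ih =>
    rw [List.map_cons, List.sum_cons, ih, List.countP_cons, List.countP_cons]
    push_cast
    ring

namespace In

variable {V E : Type} [Fintype E] [DecidableEq E]
variable {K : Code} {ends : E → Sym2 V} (L : In K ends)

open Classical in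
theorem coeff_eq {f : ℕ → Bool} (hf : ∀ a < 4096, f a = fo K.CL a) {d u : ℕ} (hd : d < 1024)
    (hu : u < 1024) (hdu : Disjoint (L.T d) (L.T u)) :
    MvPolynomial.coeff (mu (L.T d) (L.T u)) (rayleigh ends (L.ι 10) (L.ι 11)) = lh f d u := by
  rw [coeff_rayleigh _ _ _ _ _ hdu, L.sum_powerset_T hu]
  unfold lh
  rw [← sum_indR]
  apply map_sum_congrR
  intro x hx
  rw [mem_sb] at hx
  rw [← L.T_xor hx.2, ← L.T_or, ← L.T_or]
  have h1 : L.ι 10 ∉ L.T (d ||| x) := L.e_notMem (or_lt hd hx.1)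
  have h2 : L.ι 10 ∉ L.T (d ||| (u ^^^ x)) := L.e_notMem (or_lt hd (xor_lt hu hx.1))
  have h3 : L.ι 11 ∉ L.T (d ||| (u ^^^ x)) := L.f_notMem (or_lt hd (xor_lt hu hx.1))
  have h4 : L.ι 11 ∉ insert (L.ι 10) (L.T (d ||| (u ^^^ x))) := by
    rw [Finset.mem_insert]
    rintro (h | h)
    · exact absurd (L.ι.injective h) (by decide)
    · exact h3 h
  rw [← L.T_e, ← L.T_f, ← L.T_fe]
  have b1 : d ||| x < 1024 := or_lt hd hx.1
  have b2 : d ||| (u ^^^ x) < 1024 := or_lt hd (xor_lt hu hx.1)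
  have b3 : ∀ {a b : ℕ}, a < 1024 → b < 4096 → a ||| b < 4096 := fun ha hb =>
    Nat.or_lt_two_pow (n := 12) (lt_trans ha (by norm_num)) hb
  rw [L.forest_T, L.forest_T, L.forest_T, L.forest_T, ← hf _ (b3 b1 (by norm_num)),
    ← hf _ (b3 b2 (by norm_num)), ← hf _ (lt_trans b1 (by norm_num)),
    ← hf _ (b3 b2 (by norm_num))]
  simp only [h1, h2, h3, h4, not_false_eq_true, true_and]
  congr 1
  · apply if_congr _ rfl rfl
    rw [Bool.and_eq_true]
    rfl
  · apply if_congr _ rfl rfl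
    rw [Bool.and_eq_true]
    rfl

omit [Fintype E] in
theorem disj {d u : ℕ} (hdu : d &&& u = 0) : Disjoint (L.T d) (L.T u) := by
  rw [Finset.disjoint_left]
  intro x hx hx2
  unfold T at hx hx2
  rw [Finset.mem_map] at hx hx2
  obtain ⟨i, hi, rfl⟩ := hx
  obtain ⟨j, hj, hij⟩ := hx2
  rw [L.ι.injective hij, mem_S] at hj
  rw [mem_S] at hi
  have : (d &&& u).testBit i.val = true := by
    rw [Nat.testBit_and, hi, hj]
    rfl
  rw [hdu] at this
  simp at this

theorem raw_id {f : ℕ → Bool} (hf : ∀ a < 4096, f a = fo K.CL a) {lit : Bool}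
    (h : IsRealSOS lit ends (L.ι 10) (L.ι 11)) :
    ∃ (n : ℕ) (w : ℕ → ℕ → Fin n → ℝ),
      (∀ s a, w s a ≠ 0 → MemA lit ends (L.ι 10) (L.ι 11) (L.T s) (L.T a)) ∧
      ∀ d u, d < 1024 → u < 1024 → d &&& u = 0 → ((lh f d u : ℤ) : ℝ) = raw w d u := by
  obtain ⟨n, v, hv, hid⟩ := real_coeff h
  refine ⟨n, fun s a => v (L.T s) (L.T a), fun s a h => (hv _ _ h).2, ?_⟩
  intro d u hd hu hdu
  have h1 := hid (L.T d) (L.T u) (L.disj hdu)
  rw [L.coeff_eq hf hd hu (L.disj hdu)] at h1
  rw [h1, L.sum_powerset_T hu]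
  unfold raw
  apply map_sum_congrR
  intro s hs
  rw [mem_sb] at hs
  rw [← L.T_xor hs.2, L.sum_powerset_T (xor_lt hu hs.1)]
  apply map_sum_congrR
  intro x hx
  rw [mem_sb] at hx
  rw [← L.T_xor hx.2, ← L.T_or, ← L.T_or, ← L.T_or]

/-- The coefficient identities, for both readings. -/
theorem ident {f : ℕ → Bool} (hf : ∀ a < 4096, f a = fo K.CL a) {g : ℕ → ℕ}
    (hg : ∀ a < 1024, g a = cy K.CL a) (hck : ∀ a < 1024, ck K.CL f g a = true) {lit : Bool}
    (h : IsRealSOS lit ends (L.ι 10) (L.ι 11)) :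
    ∃ (n : ℕ) (w : ℕ → ℕ → Fin n → ℝ), Ident K.CL f g w := by
  obtain ⟨n, w, hmem, hid⟩ := L.raw_id hf h
  refine ⟨n, w, fun d u hd hu hdu => ?_⟩
  rw [hid d u hd hu hdu]
  apply raw_eq_tms w _ _ hd hu
  · rcases lit with _ | _
    · intro s a hs ha hst
      by_contra hne
      have h1 := (st_iff (hg a ha) s).2 (L.memA_false hs (hmem s a hne))
      rw [hst] at h1
      exact absurd h1 (by decide)
    · intro s a hs ha hst
      exact vanish K.nd hg hck w (fun s a hs ha hne => by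
        have h1 := L.memA_true hs (hmem s a hne)
        rw [← hf a (lt_trans ha (by norm_num))] at h1
        exact h1) hid s hs a ha hst
  · intro s a _ ha h2
    exact st_of_inS K.nd hg s a ha h2

end In

/-! ### Propagation -/

section

variable {n : ℕ}

theorem eq_of_dot {x y : Fin n → ℝ} (hx : x ⬝ᵥ x = 1) (hy : y ⬝ᵥ y = 1) (h : 1 ≤ x ⬝ᵥ y) :
    x = y := by
  have h1 : (x - y) ⬝ᵥ (x - y) ≤ 0 := by
    rw [sub_dotProduct, dotProduct_sub, dotProduct_sub, dotProduct_comm y x, hx, hy]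
    linarith
  have h2 : 0 ≤ (x - y) ⬝ᵥ (x - y) := Finset.sum_nonneg fun i _ => mul_self_nonneg _
  have h3 := dotProduct_self_eq_zero.1 (le_antisymm h1 h2)
  exact sub_eq_zero.1 h3

theorem eq_neg_of_dot {x y : Fin n → ℝ} (hx : x ⬝ᵥ x = 1) (hy : y ⬝ᵥ y = 1)
    (h : x ⬝ᵥ y ≤ -1) : x = -y := by
  apply eq_of_dot hx
  · rw [neg_dotProduct, dotProduct_neg, neg_neg, hy]
  · rw [dotProduct_neg]
    linarith

theorem dot_le {x y : Fin n → ℝ} (hx : x ⬝ᵥ x = 1) (hy : y ⬝ᵥ y = 1) :
    x ⬝ᵥ y ≤ 1 ∧ -1 ≤ x ⬝ᵥ y := by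
  have h1 : 0 ≤ (x - y) ⬝ᵥ (x - y) := Finset.sum_nonneg fun i _ => mul_self_nonneg _
  have h2 : 0 ≤ (x + y) ⬝ᵥ (x + y) := Finset.sum_nonneg fun i _ => mul_self_nonneg _
  rw [sub_dotProduct, dotProduct_sub, dotProduct_sub, dotProduct_comm y x, hx, hy] at h1
  rw [add_dotProduct, dotProduct_add, dotProduct_add, dotProduct_comm y x, hx, hy] at h2
  constructor <;> linarith

/-- unit check -/
def okU (CL : List ℕ) (f : ℕ → Bool) (g : ℕ → ℕ) (t : ℕ × ℕ) : Bool :=
  decide (Nat.xor t.2 t.1 < 1024) && (decide (t.1 < 1024) &&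
    (Nat.beq (Nat.land (Nat.xor t.2 t.1) t.1) 0 && (decide (lh f (Nat.xor t.2 t.1) t.1 = 1) &&
      decide (tms CL g (Nat.xor t.2 t.1) t.1 = [(t.1, t.2, t.2)]))))

/-- pair check -/
def okP (CL : List ℕ) (f : ℕ → Bool) (g : ℕ → ℕ) (r : ℤ) (t : ℕ × ℕ × ℕ × ℕ × ℕ) : Bool :=
  decide (t.1 < 1024) && (decide (t.2.1 < 1024) &&
    (Nat.beq (Nat.land t.1 t.2.1) 0 && (decide (lh f t.1 t.2.1 = r) &&
      decide (tms CL g t.1 t.2.1 = [(t.2.2.1, t.2.2.2.1, t.2.2.2.2),
        (t.2.2.1, t.2.2.2.2, t.2.2.2.1)]))))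

variable {CL : List ℕ} {f : ℕ → Bool} {g : ℕ → ℕ} {w : ℕ → ℕ → Fin n → ℝ}

theorem Ident.unit (hw : Ident CL f g w) {s a : ℕ} (h : okU CL f g (s, a) = true) :
    w s a ⬝ᵥ w s a = 1 := by
  unfold okU at h
  simp only [Bool.and_eq_true] at h
  obtain ⟨h1, h2, h3, h4, h5⟩ := h
  have h6 := hw _ _ (of_decide_eq_true h1) (of_decide_eq_true h2) (Nat.eq_of_beq_eq_true h3)
  have h4' := of_decide_eq_true h4
  have h5' := of_decide_eq_true h5
  rw [h4', h5'] at h6
  simp only [List.map_cons, List.map_nil, List.sum_cons, List.sum_nil, add_zero] at h6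
  rw [← h6]
  norm_num

theorem Ident.pair (hw : Ident CL f g w) {r : ℤ} {d u s a b : ℕ}
    (h : okP CL f g r (d, u, s, a, b) = true) :
    w s a ⬝ᵥ w s b = (r : ℝ) / 2 := by
  unfold okP at h
  simp only [Bool.and_eq_true] at h
  obtain ⟨h1, h2, h3, h4, h5⟩ := h
  have h6 := hw _ _ (of_decide_eq_true h1) (of_decide_eq_true h2) (Nat.eq_of_beq_eq_true h3)
  have h4' := of_decide_eq_true h4
  have h5' := of_decide_eq_true h5
  rw [h4', h5'] at h6
  simp only [List.map_cons, List.map_nil, List.sum_cons, List.sum_nil, add_zero] at h6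
  rw [dotProduct_comm (w s b)] at h6
  linarith

theorem Ident.pos (hw : Ident CL f g w) {d u s a b : ℕ}
    (h : okP CL f g 2 (d, u, s, a, b) = true) (ha : okU CL f g (s, a) = true)
    (hb : okU CL f g (s, b) = true) : w s a = w s b := by
  apply eq_of_dot (hw.unit ha) (hw.unit hb)
  rw [hw.pair h]
  norm_num

theorem Ident.neg (hw : Ident CL f g w) {d u s a b : ℕ}
    (h : okP CL f g (-2) (d, u, s, a, b) = true) (ha : okU CL f g (s, a) = true)
    (hb : okU CL f g (s, b) = true) : w s a = -w s b := by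
  apply eq_neg_of_dot (hw.unit ha) (hw.unit hb)
  rw [hw.pair h]
  norm_num

end

end Pool.Agent.Y412.SOS
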