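import Pool.Agent.Y412.SOS.LadderVals

set_option autoImplicit false

namespace Pool.Agent.Y412.SOS

open Pool.Agent.H482R3.SOS

theorem ladder_false {n : ℕ} {w : ℕ → ℕ → Fin n → ℝ} (hw : Ident CL ladderF ladderG w) : False := by
  have U : ∀ s a, (s, a) ∈ ladderUL → w s a ⬝ᵥ w s a = 1 :=
    fun s a h => hw.unit (ladderUL_ok _ h)
  have P : ∀ d u s a b, (d, u, s, a, b) ∈ ladderPL → (s, a) ∈ ladderUL → (s, b) ∈ ladderUL →
      w s a = w s b :=
    fun d u s a b h h1 h2 => hw.pos (ladderPL_ok _ h) (ladderUL_ok _ h1) (ladderUL_ok _ h2)
  have N : ∀ d u s a b, (d, u, s, a, b) ∈ ladderNL → (s, a) ∈ ladderUL → (s, b) ∈ ladderUL →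
      w s a = -w s b :=
    fun d u s a b h h1 h2 => hw.neg (ladderNL_ok _ h) (ladderUL_ok _ h1) (ladderUL_ok _ h2)
  have n0_214 : w 0 214 = w 0 210 := (P 210 4 0 210 214 (by decide) (by decide) (by decide)).symm
  have n0_246 : w 0 246 = w 0 210 := (P 214 32 0 214 246 (by decide) (by decide) (by decide)).symm.trans (by rw [n0_214])
  have n0_244 : w 0 244 = w 0 210 := (P 244 2 0 244 246 (by decide) (by decide) (by decide)).trans (by rw [n0_246])
  have n0_500 : w 0 500 = w 0 210 := (P 244 256 0 244 500 (by decide) (by decide) (by decide)).symm.trans (by rw [n0_244])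
  have n0_496 : w 0 496 = w 0 210 := (P 496 4 0 496 500 (by decide) (by decide) (by decide)).trans (by rw [n0_500])
  have n0_1008 : w 0 1008 = w 0 210 := (P 496 512 0 496 1008 (by decide) (by decide) (by decide)).symm.trans (by rw [n0_496])
  have n0_992 : w 0 992 = w 0 210 := (P 992 16 0 992 1008 (by decide) (by decide) (by decide)).trans (by rw [n0_1008])
  have n0_948 : w 0 948 = w 0 210 := (P 944 68 0 948 1008 (by decide) (by decide) (by decide)).trans (by rw [n0_1008])
  have n0_1000 : w 0 1000 = w 0 210 := (P 992 8 0 992 1000 (by decide) (by decide) (by decide)).symm.trans (by rw [n0_992])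
  have n0_692 : w 0 692 = w 0 210 := (P 692 256 0 692 948 (by decide) (by decide) (by decide)).trans (by rw [n0_948])
  have n0_873 : w 0 873 = w 0 210 := (P 872 129 0 873 1000 (by decide) (by decide) (by decide)).trans (by rw [n0_1000])
  have n0_694 : w 0 694 = w 0 210 := (P 692 2 0 692 694 (by decide) (by decide) (by decide)).symm.trans (by rw [n0_692])
  have n0_361 : w 0 361 = w 0 210 := (P 361 512 0 361 873 (by decide) (by decide) (by decide)).trans (by rw [n0_873])
  have n0_813 : w 0 813 = w 0 210 := (P 809 68 0 813 873 (by decide) (by decide) (by decide)).trans (by rw [n0_873])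
  have n0_678 : w 0 678 = w 0 210 := (P 678 16 0 678 694 (by decide) (by decide) (by decide)).trans (by rw [n0_694])
  have n0_365 : w 0 365 = w 0 210 := (P 361 4 0 361 365 (by decide) (by decide) (by decide)).symm.trans (by rw [n0_361])
  have n0_676 : w 0 676 = w 0 210 := (P 676 2 0 676 678 (by decide) (by decide) (by decide)).trans (by rw [n0_678])
  have n0_333 : w 0 333 = w 0 210 := (P 333 32 0 333 365 (by decide) (by decide) (by decide)).trans (by rw [n0_365])
  have n0_329 : w 0 329 = w 0 210 := (P 329 4 0 329 333 (by decide) (by decide) (by decide)).trans (by rw [n0_333])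
  have n0_349 : w 0 349 = w 0 210 := (P 333 16 0 333 349 (by decide) (by decide) (by decide)).symm.trans (by rw [n0_333])
  have n0_331 : w 0 331 = w 0 210 := (P 329 2 0 329 331 (by decide) (by decide) (by decide)).symm.trans (by rw [n0_329])
  have n0_345 : w 0 345 = w 0 210 := (P 345 4 0 345 349 (by decide) (by decide) (by decide)).trans (by rw [n0_349])
  have n0_347 : w 0 347 = w 0 210 := (P 345 2 0 345 347 (by decide) (by decide) (by decide)).symm.trans (by rw [n0_345])
  have n18_438 : w 18 438 = -w 18 63 := (neg_eq_iff_eq_neg.1 (N 36 411 18 63 438 (by decide) (by decide) (by decide)).symm)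
  have n18_603 : w 18 603 = -w 18 63 := (neg_eq_iff_eq_neg.1 (N 9 630 18 63 603 (by decide) (by decide) (by decide)).symm)
  have n64_246 : w 64 246 = w 64 214 := (P 150 96 64 214 246 (by decide) (by decide) (by decide)).symm
  have n64_244 : w 64 244 = w 64 214 := (P 180 66 64 244 246 (by decide) (by decide) (by decide)).trans (by rw [n64_246])
  have n64_242 : w 64 242 = w 64 214 := (P 178 68 64 242 246 (by decide) (by decide) (by decide)).trans (by rw [n64_246])
  have n64_230 : w 64 230 = w 64 214 := (P 166 80 64 230 246 (by decide) (by decide) (by decide)).trans (by rw [n64_246])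
  have n64_500 : w 64 500 = w 64 214 := (P 180 320 64 244 500 (by decide) (by decide) (by decide)).symm.trans (by rw [n64_244])
  have n64_496 : w 64 496 = w 64 214 := (P 432 68 64 496 500 (by decide) (by decide) (by decide)).trans (by rw [n64_500])
  have n64_484 : w 64 484 = w 64 214 := (P 420 80 64 484 500 (by decide) (by decide) (by decide)).trans (by rw [n64_500])
  have n64_1008 : w 64 1008 = w 64 214 := (P 432 576 64 496 1008 (by decide) (by decide) (by decide)).symm.trans (by rw [n64_496])
  have n64_992 : w 64 992 = w 64 214 := (P 928 80 64 992 1008 (by decide) (by decide) (by decide)).trans (by rw [n64_1008])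
  have n64_752 : w 64 752 = w 64 214 := (P 688 320 64 752 1008 (by decide) (by decide) (by decide)).trans (by rw [n64_1008])
  have n64_1000 : w 64 1000 = w 64 214 := (P 928 72 64 992 1000 (by decide) (by decide) (by decide)).symm.trans (by rw [n64_992])
  have n64_754 : w 64 754 = w 64 214 := (P 688 66 64 752 754 (by decide) (by decide) (by decide)).symm.trans (by rw [n64_752])
  have n64_873 : w 64 873 = w 64 214 := (P 808 193 64 873 1000 (by decide) (by decide) (by decide)).trans (by rw [n64_1000])
  have n64_738 : w 64 738 = w 64 214 := (P 674 80 64 738 754 (by decide) (by decide) (by decide)).trans (by rw [n64_754])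
  have n64_722 : w 64 722 = w 64 214 := (P 658 96 64 722 754 (by decide) (by decide) (by decide)).trans (by rw [n64_754])
  have n64_841 : w 64 841 = w 64 214 := (P 777 96 64 841 873 (by decide) (by decide) (by decide)).trans (by rw [n64_873])
  have n64_361 : w 64 361 = w 64 214 := (P 297 576 64 361 873 (by decide) (by decide) (by decide)).trans (by rw [n64_873])
  have n64_726 : w 64 726 = w 64 214 := (P 658 68 64 722 726 (by decide) (by decide) (by decide)).symm.trans (by rw [n64_722])
  have n64_730 : w 64 730 = w 64 214 := (P 658 72 64 722 730 (by decide) (by decide) (by decide)).symm.trans (by rw [n64_722])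
  have n64_843 : w 64 843 = w 64 214 := (P 777 66 64 841 843 (by decide) (by decide) (by decide)).symm.trans (by rw [n64_841])
  have n64_845 : w 64 845 = w 64 214 := (P 777 68 64 841 845 (by decide) (by decide) (by decide)).symm.trans (by rw [n64_841])
  have n64_857 : w 64 857 = w 64 214 := (P 777 80 64 841 857 (by decide) (by decide) (by decide)).symm.trans (by rw [n64_841])
  have n64_363 : w 64 363 = w 64 214 := (P 297 66 64 361 363 (by decide) (by decide) (by decide)).symm.trans (by rw [n64_361])
  have n64_365 : w 64 365 = w 64 214 := (P 297 68 64 361 365 (by decide) (by decide) (by decide)).symm.trans (by rw [n64_361])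
  have n64_724 : w 64 724 = w 64 214 := (P 660 66 64 724 726 (by decide) (by decide) (by decide)).trans (by rw [n64_726])
  have n64_603 : w 64 603 = w 64 214 := (P 538 193 64 603 730 (by decide) (by decide) (by decide)).trans (by rw [n64_730])
  have n64_333 : w 64 333 = w 64 214 := (P 269 96 64 333 365 (by decide) (by decide) (by decide)).trans (by rw [n64_365])
  have n64_349 : w 64 349 = w 64 214 := (P 269 80 64 333 349 (by decide) (by decide) (by decide)).symm.trans (by rw [n64_333])
  have n128_203 : w 128 203 = w 128 202 := (P 74 129 128 202 203 (by decide) (by decide) (by decide)).symm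
  have n128_206 : w 128 206 = w 128 202 := (P 74 132 128 202 206 (by decide) (by decide) (by decide)).symm
  have n128_222 : w 128 222 = w 128 202 := (P 78 144 128 206 222 (by decide) (by decide) (by decide)).symm.trans (by rw [n128_206])
  have n128_218 : w 128 218 = w 128 202 := (P 90 132 128 218 222 (by decide) (by decide) (by decide)).trans (by rw [n128_222])
  have n128_214 : w 128 214 = w 128 202 := (P 86 136 128 214 222 (by decide) (by decide) (by decide)).trans (by rw [n128_222])
  have n128_219 : w 128 219 = w 128 202 := (P 90 129 128 218 219 (by decide) (by decide) (by decide)).symm.trans (by rw [n128_218])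
  have n128_210 : w 128 210 = w 128 202 := (P 82 132 128 210 214 (by decide) (by decide) (by decide)).trans (by rw [n128_214])
  have n128_246 : w 128 246 = w 128 202 := (P 86 160 128 214 246 (by decide) (by decide) (by decide)).symm.trans (by rw [n128_214])
  have n128_217 : w 128 217 = w 128 202 := (P 89 130 128 217 219 (by decide) (by decide) (by decide)).trans (by rw [n128_219])
  have n128_211 : w 128 211 = w 128 202 := (P 82 129 128 210 211 (by decide) (by decide) (by decide)).symm.trans (by rw [n128_210])
  have n128_244 : w 128 244 = w 128 202 := (P 116 130 128 244 246 (by decide) (by decide) (by decide)).trans (by rw [n128_246])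
  have n128_500 : w 128 500 = w 128 202 := (P 116 384 128 244 500 (by decide) (by decide) (by decide)).symm.trans (by rw [n128_244])
  have n128_496 : w 128 496 = w 128 202 := (P 368 132 128 496 500 (by decide) (by decide) (by decide)).trans (by rw [n128_500])
  have n128_468 : w 128 468 = w 128 202 := (P 340 160 128 468 500 (by decide) (by decide) (by decide)).trans (by rw [n128_500])
  have n128_438 : w 128 438 = w 128 202 := (P 308 194 128 438 500 (by decide) (by decide) (by decide)).trans (by rw [n128_500])
  have n128_1008 : w 128 1008 = w 128 202 := (P 368 640 128 496 1008 (by decide) (by decide) (by decide)).symm.trans (by rw [n128_496])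
  have n128_470 : w 128 470 = w 128 202 := (P 340 130 128 468 470 (by decide) (by decide) (by decide)).symm.trans (by rw [n128_468])
  have n128_476 : w 128 476 = w 128 202 := (P 340 136 128 468 476 (by decide) (by decide) (by decide)).symm.trans (by rw [n128_468])
  have n128_752 : w 128 752 = w 128 202 := (P 624 384 128 752 1008 (by decide) (by decide) (by decide)).trans (by rw [n128_1008])
  have n128_948 : w 128 948 = w 128 202 := (P 816 196 128 948 1008 (by decide) (by decide) (by decide)).trans (by rw [n128_1008])
  have n128_466 : w 128 466 = w 128 202 := (P 338 132 128 466 470 (by decide) (by decide) (by decide)).trans (by rw [n128_470])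
  have n128_472 : w 128 472 = w 128 202 := (P 344 132 128 472 476 (by decide) (by decide) (by decide)).trans (by rw [n128_476])
  have n128_460 : w 128 460 = w 128 202 := (P 332 144 128 460 476 (by decide) (by decide) (by decide)).trans (by rw [n128_476])
  have n128_754 : w 128 754 = w 128 202 := (P 624 130 128 752 754 (by decide) (by decide) (by decide)).symm.trans (by rw [n128_752])
  have n128_932 : w 128 932 = w 128 202 := (P 804 144 128 932 948 (by decide) (by decide) (by decide)).trans (by rw [n128_948])
  have n128_692 : w 128 692 = w 128 202 := (P 564 384 128 692 948 (by decide) (by decide) (by decide)).trans (by rw [n128_948])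
  have n128_467 : w 128 467 = w 128 202 := (P 338 129 128 466 467 (by decide) (by decide) (by decide)).symm.trans (by rw [n128_466])
  have n128_474 : w 128 474 = w 128 202 := (P 344 130 128 472 474 (by decide) (by decide) (by decide)).symm.trans (by rw [n128_472])
  have n128_456 : w 128 456 = w 128 202 := (P 328 132 128 456 460 (by decide) (by decide) (by decide)).trans (by rw [n128_460])
  have n128_722 : w 128 722 = w 128 202 := (P 594 160 128 722 754 (by decide) (by decide) (by decide)).trans (by rw [n128_754])
  have n128_933 : w 128 933 = w 128 202 := (P 804 129 128 932 933 (by decide) (by decide) (by decide)).symm.trans (by rw [n128_932])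
  have n128_934 : w 128 934 = w 128 202 := (P 804 130 128 932 934 (by decide) (by decide) (by decide)).symm.trans (by rw [n128_932])
  have n128_940 : w 128 940 = w 128 202 := (P 804 136 128 932 940 (by decide) (by decide) (by decide)).symm.trans (by rw [n128_932])
  have n128_693 : w 128 693 = w 128 202 := (P 564 129 128 692 693 (by decide) (by decide) (by decide)).symm.trans (by rw [n128_692])
  have n128_694 : w 128 694 = w 128 202 := (P 564 130 128 692 694 (by decide) (by decide) (by decide)).symm.trans (by rw [n128_692])
  have n128_465 : w 128 465 = w 128 202 := (P 337 130 128 465 467 (by decide) (by decide) (by decide)).trans (by rw [n128_467])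
  have n128_458 : w 128 458 = w 128 202 := (P 328 130 128 456 458 (by decide) (by decide) (by decide)).symm.trans (by rw [n128_456])
  have n128_730 : w 128 730 = w 128 202 := (P 594 136 128 722 730 (by decide) (by decide) (by decide)).symm.trans (by rw [n128_722])
  have n128_678 : w 128 678 = w 128 202 := (P 550 144 128 678 694 (by decide) (by decide) (by decide)).trans (by rw [n128_694])
  have n128_714 : w 128 714 = w 128 202 := (P 586 144 128 714 730 (by decide) (by decide) (by decide)).trans (by rw [n128_730])
  have n128_676 : w 128 676 = w 128 202 := (P 548 130 128 676 678 (by decide) (by decide) (by decide)).trans (by rw [n128_678])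
  have n128_686 : w 128 686 = w 128 202 := (P 550 136 128 678 686 (by decide) (by decide) (by decide)).symm.trans (by rw [n128_678])
  have n128_715 : w 128 715 = w 128 202 := (P 586 129 128 714 715 (by decide) (by decide) (by decide)).symm.trans (by rw [n128_714])
  have n128_677 : w 128 677 = w 128 202 := (P 548 129 128 676 677 (by decide) (by decide) (by decide)).symm.trans (by rw [n128_676])
  have n128_684 : w 128 684 = w 128 202 := (P 556 130 128 684 686 (by decide) (by decide) (by decide)).trans (by rw [n128_686])
  have n128_713 : w 128 713 = w 128 202 := (P 585 130 128 713 715 (by decide) (by decide) (by decide)).trans (by rw [n128_715])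
  have n128_685 : w 128 685 = w 128 202 := (P 556 129 128 684 685 (by decide) (by decide) (by decide)).symm.trans (by rw [n128_684])
  have n192_222 : w 192 222 = w 192 214 := (P 22 200 192 214 222 (by decide) (by decide) (by decide)).symm
  have n192_246 : w 192 246 = w 192 214 := (P 22 224 192 214 246 (by decide) (by decide) (by decide)).symm
  have n192_220 : w 192 220 = w 192 214 := (P 28 194 192 220 222 (by decide) (by decide) (by decide)).trans (by rw [n192_222])
  have n192_244 : w 192 244 = w 192 214 := (P 52 194 192 244 246 (by decide) (by decide) (by decide)).trans (by rw [n192_246])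
  have n192_242 : w 192 242 = w 192 214 := (P 50 196 192 242 246 (by decide) (by decide) (by decide)).trans (by rw [n192_246])
  have n192_230 : w 192 230 = w 192 214 := (P 38 208 192 230 246 (by decide) (by decide) (by decide)).trans (by rw [n192_246])
  have n192_221 : w 192 221 = w 192 214 := (P 28 193 192 220 221 (by decide) (by decide) (by decide)).symm.trans (by rw [n192_220])
  have n192_245 : w 192 245 = w 192 214 := (P 52 193 192 244 245 (by decide) (by decide) (by decide)).symm.trans (by rw [n192_244])
  have n192_500 : w 192 500 = w 192 214 := (P 52 448 192 244 500 (by decide) (by decide) (by decide)).symm.trans (by rw [n192_244])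
  have n192_243 : w 192 243 = w 192 214 := (P 50 193 192 242 243 (by decide) (by decide) (by decide)).symm.trans (by rw [n192_242])
  have n192_238 : w 192 238 = w 192 214 := (P 38 200 192 230 238 (by decide) (by decide) (by decide)).symm.trans (by rw [n192_230])
  have n192_496 : w 192 496 = w 192 214 := (P 304 196 192 496 500 (by decide) (by decide) (by decide)).trans (by rw [n192_500])
  have n192_484 : w 192 484 = w 192 214 := (P 292 208 192 484 500 (by decide) (by decide) (by decide)).trans (by rw [n192_500])
  have n192_468 : w 192 468 = w 192 214 := (P 276 224 192 468 500 (by decide) (by decide) (by decide)).trans (by rw [n192_500])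
  have n192_234 : w 192 234 = w 192 214 := (P 42 196 192 234 238 (by decide) (by decide) (by decide)).trans (by rw [n192_238])
  have n192_498 : w 192 498 = w 192 214 := (P 304 194 192 496 498 (by decide) (by decide) (by decide)).symm.trans (by rw [n192_496])
  have n192_1008 : w 192 1008 = w 192 214 := (P 304 704 192 496 1008 (by decide) (by decide) (by decide)).symm.trans (by rw [n192_496])
  have n192_485 : w 192 485 = w 192 214 := (P 292 193 192 484 485 (by decide) (by decide) (by decide)).symm.trans (by rw [n192_484])
  have n192_486 : w 192 486 = w 192 214 := (P 292 194 192 484 486 (by decide) (by decide) (by decide)).symm.trans (by rw [n192_484])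
  have n192_492 : w 192 492 = w 192 214 := (P 292 200 192 484 492 (by decide) (by decide) (by decide)).symm.trans (by rw [n192_484])
  have n192_469 : w 192 469 = w 192 214 := (P 276 193 192 468 469 (by decide) (by decide) (by decide)).symm.trans (by rw [n192_468])
  have n192_470 : w 192 470 = w 192 214 := (P 276 194 192 468 470 (by decide) (by decide) (by decide)).symm.trans (by rw [n192_468])
  have n192_235 : w 192 235 = w 192 214 := (P 42 193 192 234 235 (by decide) (by decide) (by decide)).symm.trans (by rw [n192_234])
  have n192_992 : w 192 992 = w 192 214 := (P 800 208 192 992 1008 (by decide) (by decide) (by decide)).trans (by rw [n192_1008])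
  have n192_976 : w 192 976 = w 192 214 := (P 784 224 192 976 1008 (by decide) (by decide) (by decide)).trans (by rw [n192_1008])
  have n192_752 : w 192 752 = w 192 214 := (P 560 448 192 752 1008 (by decide) (by decide) (by decide)).trans (by rw [n192_1008])
  have n192_488 : w 192 488 = w 192 214 := (P 296 196 192 488 492 (by decide) (by decide) (by decide)).trans (by rw [n192_492])
  have n192_993 : w 192 993 = w 192 214 := (P 800 193 192 992 993 (by decide) (by decide) (by decide)).symm.trans (by rw [n192_992])
  have n192_994 : w 192 994 = w 192 214 := (P 800 194 192 992 994 (by decide) (by decide) (by decide)).symm.trans (by rw [n192_992])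
  have n192_977 : w 192 977 = w 192 214 := (P 784 193 192 976 977 (by decide) (by decide) (by decide)).symm.trans (by rw [n192_976])
  have n192_980 : w 192 980 = w 192 214 := (P 784 196 192 976 980 (by decide) (by decide) (by decide)).symm.trans (by rw [n192_976])
  have n192_984 : w 192 984 = w 192 214 := (P 784 200 192 976 984 (by decide) (by decide) (by decide)).symm.trans (by rw [n192_976])
  have n192_754 : w 192 754 = w 192 214 := (P 560 194 192 752 754 (by decide) (by decide) (by decide)).symm.trans (by rw [n192_752])
  have n192_490 : w 192 490 = w 192 214 := (P 296 194 192 488 490 (by decide) (by decide) (by decide)).symm.trans (by rw [n192_488])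
  have n192_968 : w 192 968 = w 192 214 := (P 776 208 192 968 984 (by decide) (by decide) (by decide)).trans (by rw [n192_984])
  have n192_738 : w 192 738 = w 192 214 := (P 546 208 192 738 754 (by decide) (by decide) (by decide)).trans (by rw [n192_754])
  have n192_722 : w 192 722 = w 192 214 := (P 530 224 192 722 754 (by decide) (by decide) (by decide)).trans (by rw [n192_754])
  have n192_970 : w 192 970 = w 192 214 := (P 776 194 192 968 970 (by decide) (by decide) (by decide)).symm.trans (by rw [n192_968])
  have n192_972 : w 192 972 = w 192 214 := (P 776 196 192 968 972 (by decide) (by decide) (by decide)).symm.trans (by rw [n192_968])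
  have n192_746 : w 192 746 = w 192 214 := (P 546 200 192 738 746 (by decide) (by decide) (by decide)).symm.trans (by rw [n192_738])
  have n192_723 : w 192 723 = w 192 214 := (P 530 193 192 722 723 (by decide) (by decide) (by decide)).symm.trans (by rw [n192_722])
  have n192_726 : w 192 726 = w 192 214 := (P 530 196 192 722 726 (by decide) (by decide) (by decide)).symm.trans (by rw [n192_722])
  have n192_730 : w 192 730 = w 192 214 := (P 530 200 192 722 730 (by decide) (by decide) (by decide)).symm.trans (by rw [n192_722])
  have n192_744 : w 192 744 = w 192 214 := (P 552 194 192 744 746 (by decide) (by decide) (by decide)).trans (by rw [n192_746])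
  have n192_724 : w 192 724 = w 192 214 := (P 532 194 192 724 726 (by decide) (by decide) (by decide)).trans (by rw [n192_726])
  have n192_728 : w 192 728 = w 192 214 := (P 536 194 192 728 730 (by decide) (by decide) (by decide)).trans (by rw [n192_730])
  have n192_714 : w 192 714 = w 192 214 := (P 522 208 192 714 730 (by decide) (by decide) (by decide)).trans (by rw [n192_730])
  have n192_745 : w 192 745 = w 192 214 := (P 552 193 192 744 745 (by decide) (by decide) (by decide)).symm.trans (by rw [n192_744])
  have n192_725 : w 192 725 = w 192 214 := (P 532 193 192 724 725 (by decide) (by decide) (by decide)).symm.trans (by rw [n192_724])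
  have n192_729 : w 192 729 = w 192 214 := (P 536 193 192 728 729 (by decide) (by decide) (by decide)).symm.trans (by rw [n192_728])
  have n192_715 : w 192 715 = w 192 214 := (P 522 193 192 714 715 (by decide) (by decide) (by decide)).symm.trans (by rw [n192_714])
  have n192_718 : w 192 718 = w 192 214 := (P 522 196 192 714 718 (by decide) (by decide) (by decide)).symm.trans (by rw [n192_714])
  have n192_716 : w 192 716 = w 192 214 := (P 524 194 192 716 718 (by decide) (by decide) (by decide)).trans (by rw [n192_718])
  have n192_717 : w 192 717 = w 192 214 := (P 524 193 192 716 717 (by decide) (by decide) (by decide)).symm.trans (by rw [n192_716])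
  have q0_1023 := hw 0 1023 (by norm_num) (by norm_num) (by decide)
  rw [ladder_lh_0_1023, ladder_tms_0_1023] at q0_1023
  simp only [List.map_cons, List.map_nil, List.sum_cons, List.sum_nil, add_zero] at q0_1023
  simp only [n0_329, n0_331, n0_345, n0_347, n0_676, n0_678, n0_692, n0_694, n0_813, n128_203, n128_211, n128_217, n128_218, n128_219, n128_438, n128_458, n128_465, n128_466, n128_467, n128_474, n128_677, n128_684, n128_685, n128_686, n128_693, n128_713, n128_932, n128_933, n128_934, n128_940, n128_948, n18_438, n18_603, n192_221, n192_222, n192_235, n192_238, n192_243, n192_245, n192_469, n192_470, n192_485, n192_486, n192_490, n192_492, n192_498, n192_500, n192_715, n192_717, n192_723, n192_725, n192_729, n192_730, n192_745, n192_746, n192_970, n192_972, n192_977, n192_980, n192_993, n192_994, n64_230, n64_242, n64_244, n64_246, n64_333, n64_349, n64_361, n64_363, n64_365, n64_484, n64_603, n64_722, n64_724, n64_726, n64_738, n64_754, n64_841, n64_843, n64_845, n64_857, n64_873] at q0_1023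
  try simp only [neg_dotProduct, dotProduct_neg, neg_neg] at q0_1023
  push_cast at q0_1023
  have b0_1023_0 := dot_le (U 0 63 (by decide)) (U 0 960 (by decide))
  have b0_1023_1 := dot_le (U 256 438 (by decide)) (U 256 841 (by decide))
  have b0_1023_2 := dot_le (U 512 603 (by decide)) (U 512 932 (by decide))
  linarith [U 0 63 (by decide), U 0 210 (by decide), U 0 960 (by decide), U 18 63 (by decide), U 64 214 (by decide), U 128 202 (by decide), U 192 214 (by decide), U 256 438 (by decide), U 256 841 (by decide), U 512 603 (by decide), U 512 932 (by decide), dotProduct_comm (w 0 960) (w 0 63), dotProduct_comm (w 256 841) (w 256 438), dotProduct_comm (w 512 932) (w 512 603), b0_1023_0.1, b0_1023_1.1, b0_1023_2.1, b0_1023_0.2, b0_1023_1.2, b0_1023_2.2]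

end Pool.Agent.Y412.SOS
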