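import Pool.Agent.Y412.SOS.Defs

set_option autoImplicit false

/-!
# The cube is planar and bipartite
-/

namespace Pool.Agent.Y412.SOS

/-- `p` is a drawing of the graph in the plane, with straight edges: distinct vertices are drawn as
distinct points, and two distinct edges meet only in common ends. -/
def IsPlaneDrawing {V E : Type} (ends : E → Sym2 V) (p : V → ℝ × ℝ) : Prop :=
  Function.Injective p ∧ ∀ x y, x ≠ y → ∀ a b c d, ends x = s(a, b) → ends y = s(c, d) →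
    ∀ q ∈ segment ℝ (p a) (p b), q ∈ segment ℝ (p c) (p d) →
      ∃ v, v ∈ ends x ∧ v ∈ ends y ∧ q = p v

def px : Fin 8 → ℤ := ![0, 3, 0, 3, 1, 2, 1, 2]

def py : Fin 8 → ℤ := ![0, 0, 3, 3, 1, 1, 2, 2]

/-- a plane drawing of the cube -/
noncomputable def pt (v : Fin 8) : ℝ × ℝ := ((px v : ℝ), (py v : ℝ))

/-- separating functionals -/
def fl : Fin 12 → Fin 12 → ℤ × ℤ × ℤ := ![
  ![(0, 0, 0), (-1, 1, 0), (-1, 0, 1), (-1, 0, 1), (0, -1, 3), (-1, -1, 3), (-1, 0, 1),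
    (-1, 0, 1), (-1, 0, 1), (-1, 0, 1), (0, 1, 0), (-1, 0, 1)],
  ![(1, 0, 0), (0, 0, 0), (-1, 0, 2), (-1, 0, 2), (0, -1, 2), (0, -1, 2), (-1, 0, 2),
    (-1, 0, 1), (-1, 0, 2), (0, -1, 2), (0, 1, 0), (-1, 0, 1)],
  ![(1, 0, -2), (1, 0, -2), (0, 0, 0), (1, 1, -3), (0, -1, 3), (1, 0, -2), (1, -1, 0),
    (1, 0, -2), (1, 0, -2), (1, 0, -2), (0, 1, 0), (1, 0, -2)],
  ![(1, 0, -1), (1, 0, -1), (-1, 0, 3), (0, 0, 0), (0, -1, 2), (0, -1, 2), (0, -1, 2),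
    (0, -1, 1), (0, -1, 1), (0, -1, 2), (0, 1, 0), (1, 0, -1)],
  ![(1, 0, 0), (0, 1, -2), (-1, 0, 3), (0, 1, -2), (0, 0, 0), (1, 1, -3), (-1, 1, 0),
    (0, 1, -2), (0, 1, -2), (0, 1, -2), (0, 1, -2), (0, 1, -2)],
  ![(1, 0, 0), (0, 1, -1), (-1, 0, 2), (-1, 0, 2), (0, -1, 3), (0, 0, 0), (-1, 0, 2),
    (0, 1, -1), (-1, 0, 2), (-1, 0, 1), (0, 1, -1), (-1, 0, 1)],
  ![(1, 0, -1), (0, 1, -1), (-1, 0, 3), (0, 1, -1), (0, -1, 3), (1, 0, -1), (0, 0, 0),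
    (0, 1, -1), (0, 1, -2), (0, 1, -2), (0, 1, -1), (1, 0, -1)],
  ![(1, 0, 0), (1, 0, -1), (-1, 0, 3), (-1, 0, 2), (0, -1, 2), (0, -1, 2), (0, -1, 2),
    (0, 0, 0), (-1, 0, 2), (0, -1, 2), (0, 1, 0), (1, 0, -1)],
  ![(1, 0, -1), (1, 0, -1), (-1, 0, 3), (0, 1, -1), (0, -1, 3), (1, 0, -1), (0, -1, 2),
    (0, 1, -1), (0, 0, 0), (0, -1, 2), (0, 1, 0), (1, 0, -1)],
  ![(1, 0, 0), (0, 1, -1), (-1, 0, 3), (0, 1, -1), (0, -1, 3), (1, 0, -1), (-1, 0, 2),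
    (0, 1, -1), (-1, 0, 2), (0, 0, 0), (0, 1, -1), (1, 0, -1)],
  ![(1, 0, 0), (1, -1, 0), (-1, 0, 3), (-1, -1, 3), (0, -1, 1), (0, -1, 1), (0, -1, 1),
    (0, -1, 1), (0, -1, 1), (0, -1, 1), (0, 0, 0), (0, -1, 1)],
  ![(1, 0, 0), (0, 1, -1), (-1, 0, 2), (-1, 0, 2), (0, -1, 3), (0, -1, 2), (-1, 0, 2),
    (0, 1, -1), (-1, 0, 2), (0, -1, 2), (0, 1, 0), (0, 0, 0)]]

def lv (t : ℤ × ℤ × ℤ) (v : Fin 8) : ℤ := t.1 * px v + t.2.1 * py v + t.2.2

theorem sep : ∀ i j, i ≠ j →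
    (∀ v, v ∈ cube i → 0 ≤ lv (fl i j) v ∧ (lv (fl i j) v = 0 → v ∈ cube j)) ∧
    (∀ v, v ∈ cube j → lv (fl i j) v ≤ 0) ∧ ∃ v, v ∈ cube i ∧ lv (fl i j) v ≠ 0 := by
  decide +kernel

/-- the functional on the plane -/
noncomputable def lr (t : ℤ × ℤ × ℤ) (q : ℝ × ℝ) : ℝ := t.1 * q.1 + t.2.1 * q.2 + t.2.2

theorem lr_pt (t : ℤ × ℤ × ℤ) (v : Fin 8) : lr t (pt v) = (lv t v : ℝ) := by
  unfold lr pt lv
  push_cast
  ring

theorem lr_comb (t : ℤ × ℤ × ℤ) (x y : ℝ) (h : x + y = 1) (p q : ℝ × ℝ) :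
    lr t (x • p + y • q) = x * lr t p + y * lr t q := by
  unfold lr
  simp only [Prod.fst_add, Prod.snd_add, Prod.smul_fst, Prod.smul_snd, smul_eq_mul]
  have : y = 1 - x := by linarith
  subst this
  ring

theorem pt_injective : Function.Injective pt := by
  intro a b h
  have h1 : (px a : ℝ) = px b := congrArg Prod.fst h
  have h2 : (py a : ℝ) = py b := congrArg Prod.snd h
  have h3 : px a = px b := by exact_mod_cast h1
  have h4 : py a = py b := by exact_mod_cast h2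
  have h5 : ∀ a b : Fin 8, px a = px b → py a = py b → a = b := by decide
  exact h5 a b h3 h4

/-- The cube has a plane drawing with straight edges. -/
theorem cube_planar : IsPlaneDrawing cube pt := by
  refine ⟨pt_injective, ?_⟩
  intro i j hij a b c d hi hj q hq hq'
  obtain ⟨h1, h2, v0, hv0, hv1⟩ := sep i j hij
  obtain ⟨x, y, hx, hy, hxy, rfl⟩ := hq
  obtain ⟨x', y', hx', hy', hxy', heq⟩ := hq'
  have ha : a ∈ cube i := by rw [hi]; simp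
  have hb : b ∈ cube i := by rw [hi]; simp
  have hc : c ∈ cube j := by rw [hj]; simp
  have hd : d ∈ cube j := by rw [hj]; simp
  have e1 : lr (fl i j) (x • pt a + y • pt b) ≤ 0 := by
    rw [← heq, lr_comb _ _ _ hxy', lr_pt, lr_pt]
    have p1 : ((lv (fl i j) c : ℤ) : ℝ) ≤ 0 := by exact_mod_cast h2 c hc
    have p2 : ((lv (fl i j) d : ℤ) : ℝ) ≤ 0 := by exact_mod_cast h2 d hd
    have := mul_nonneg hx' (neg_nonneg.2 p1)
    have := mul_nonneg hy' (neg_nonneg.2 p2)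
    linarith
  rw [lr_comb _ _ _ hxy, lr_pt, lr_pt] at e1
  have q1 : (0 : ℝ) ≤ ((lv (fl i j) a : ℤ) : ℝ) := by exact_mod_cast (h1 a ha).1
  have q2 : (0 : ℝ) ≤ ((lv (fl i j) b : ℤ) : ℝ) := by exact_mod_cast (h1 b hb).1
  have m1 := mul_nonneg hx q1
  have m2 := mul_nonneg hy q2
  have z1 : x * ((lv (fl i j) a : ℤ) : ℝ) = 0 := by linarith
  have z2 : y * ((lv (fl i j) b : ℤ) : ℝ) = 0 := by linarith
  by_cases ha0 : lv (fl i j) a = 0
  · have hb0 : lv (fl i j) b ≠ 0 := by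
      intro hb0
      rw [hi, Sym2.mem_iff] at hv0
      rcases hv0 with rfl | rfl
      · exact hv1 ha0
      · exact hv1 hb0
    have hy0 : y = 0 := by
      rcases mul_eq_zero.1 z2 with h | h
      · exact h
      · exact absurd (by exact_mod_cast h) hb0
    have hx1 : x = 1 := by linarith
    refine ⟨a, ha, (h1 a ha).2 ha0, ?_⟩
    rw [hy0, hx1, one_smul, zero_smul, add_zero]
  · have hx0 : x = 0 := by
      rcases mul_eq_zero.1 z1 with h | h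
      · exact h
      · exact absurd (by exact_mod_cast h) ha0
    have hy1 : y = 1 := by linarith
    have hb0 : lv (fl i j) b = 0 := by
      rw [hy1, one_mul] at z2
      exact_mod_cast z2
    refine ⟨b, hb, (h1 b hb).2 hb0, ?_⟩
    rw [hy1, hx0, one_smul, zero_smul, zero_add]

/-- The cube is bipartite. -/
theorem cube_bipartite : ∃ col : Fin 8 → Bool, ∀ i a b, cube i = s(a, b) → col a ≠ col b :=
  ⟨![true, false, false, true, false, true, true, false], by decide +kernel⟩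

end Pool.Agent.Y412.SOS
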