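import Pool.Agent.Y412.SOS.CubeFinal
import Pool.Agent.Y412.SOS.LadderFinal
import Pool.Agent.Y412.SOS.Planar

set_option autoImplicit false

namespace Pool.Agent.Y412.SOS

open Pool.Agent.H482R3.SOS

variable {V E : Type} [Fintype E] [DecidableEq E]

theorem cube_not_real_sos {ends : E → Sym2 V} (L : In cubeCode ends) (lit : Bool) :
    ¬ IsRealSOS lit ends (L.ι 10) (L.ι 11) := by
  intro h
  obtain ⟨n, w, hw⟩ := L.ident cubeF_eq cubeG_eq cube_ck h
  exact cube_false hw

theorem ladder_not_real_sos {ends : E → Sym2 V} (L : In ladderCode ends) (lit : Bool) :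
    ¬ IsRealSOS lit ends (L.ι 10) (L.ι 11) := by
  intro h
  obtain ⟨n, w, hw⟩ := L.ident ladderF_eq ladderG_eq ladder_ck h
  exact ladder_false hw

theorem not_real_sos {ends : E → Sym2 V} (κ : Fin 8 ↪ V) (ι : Fin 12 ↪ E)
    (h : (∀ i, ends (ι i) = (cube i).map κ) ∨ ∀ i, ends (ι i) = (ladder i).map κ) (lit : Bool) :
    ¬ IsRealSOS lit ends (ι 10) (ι 11) := by
  rcases h with h | h
  · exact cube_not_real_sos (⟨κ, ι, h⟩ : In cubeCode ends) lit
  · exact ladder_not_real_sos (⟨κ, ι, h⟩ : In ladderCode ends) lit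

end Pool.Agent.Y412.SOS
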